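import Mathlib

/-!
# Common definitions for the extension theorem (upper bound)
-/

namespace Pool.Agent.Lib.MP_caca3f_an.Ext

universe u v w

/-- A metric space covered by classes `B l`, with nearest points `z l x ∈ B l`. -/
structure Cover (X : Type u) [MetricSpace X] (ι : Type v) where
  B : ι → Set X
  z : ι → X → X
  zmem : ∀ l x, z l x ∈ B l
  zmin : ∀ l x b, b ∈ B l → dist x (z l x) ≤ dist x b
  cov : ∀ x, ∃ l, x ∈ B l

variable {X : Type u} [MetricSpace X] {ι : Type v}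

/-- distance to the class `l` -/
noncomputable def Cover.δ (C : Cover X ι) (l : ι) (x : X) : ℝ := dist x (C.z l x)

theorem Cover.δ_nonneg (C : Cover X ι) (l : ι) (x : X) : 0 ≤ C.δ l x := dist_nonneg

theorem Cover.δ_eq_zero (C : Cover X ι) {l : ι} {x : X} (h : x ∈ C.B l) : C.δ l x = 0 :=
  le_antisymm ((C.zmin l x x h).trans_eq (dist_self x)) dist_nonneg

theorem Cover.z_eq (C : Cover X ι) {l : ι} {x : X} (h : x ∈ C.B l) : C.z l x = x :=
  (dist_eq_zero.mp (C.δ_eq_zero h)).symm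

theorem Cover.mem_of_δ_eq_zero (C : Cover X ι) {l : ι} {x : X} (h : C.δ l x = 0) : x ∈ C.B l := by
  have h1 : x = C.z l x := dist_eq_zero.mp h
  rw [h1]; exact C.zmem l x

theorem Cover.δ_le (C : Cover X ι) (l : ι) (x y : X) : C.δ l x ≤ C.δ l y + dist x y := by
  calc C.δ l x ≤ dist x (C.z l y) := C.zmin l x _ (C.zmem l y)
    _ ≤ dist x y + dist y (C.z l y) := dist_triangle _ _ _
    _ = C.δ l y + dist x y := by rw [Cover.δ]; ring

theorem Cover.δ_le_dist (C : Cover X ι) {l : ι} (x : X) {b : X} (h : b ∈ C.B l) :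
    C.δ l x ≤ dist x b := C.zmin l x b h

/-- every Lipschitz map from the class `l` extends to an anchored Lipschitz map -/
def ExtProp (C : Cover X ι) (C0 V : ℝ) (l : ι) : Prop :=
  ∀ (K : Type w) [NormedAddCommGroup K] [InnerProductSpace ℝ K] (L : ℝ) (f : X → K), 0 ≤ L →
    (∀ x ∈ C.B l, ∀ y ∈ C.B l, ‖f x - f y‖ ≤ L * dist x y) →
    ∃ F : X → K, (∀ x ∈ C.B l, F x = f x) ∧
      (∀ x, ‖F x - f (C.z l x)‖ ≤ C0 * L * C.δ l x) ∧
      ∀ x y, ‖F x - F y‖ ≤ V * L * dist x y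

/-- truncated exponential weights -/
noncomputable def wt (β ε : ℝ) (s : ι → ℝ) (m : ι) : ℝ :=
  max (Real.exp (-(β * s m)) - Real.exp (-(β * ε))) 0

end Pool.Agent.Lib.MP_caca3f_an.Ext
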