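import Mathlib
import Pool.Agent.Lib.MP_caca3f_an.Compact

/-!
# JOB B4. A positive definite kernel
-/

namespace Pool.Agent.Lib.MP_caca3f_an.Ext

open Finset Filter Topology

universe u v

/-- positive semidefinite real kernels, as quadratic forms -/
def PD {X : Type u} (k : X → X → ℝ) : Prop :=
  (∀ x y, k x y = k y x) ∧
    ∀ v : X →₀ ℝ, 0 ≤ ∑ x ∈ v.support, ∑ y ∈ v.support, k x y * v x * v y

theorem PD.toMatrix {X : Type u} {k : X → X → ℝ} (h : PD k) :
    (Matrix.of k).PosSemidef := by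
  refine ⟨?_, fun v => ?_⟩
  · ext x y
    simp [h.1 y x]
  · have h2 := h.2 v
    simp only [Finsupp.sum]
    refine h2.trans_eq ?_
    refine Finset.sum_congr rfl fun x _ => Finset.sum_congr rfl fun y _ => ?_
    rw [star_trivial, Matrix.of_apply]
    ring

theorem PD.ofMatrix {X : Type u} {k : X → X → ℝ} (h : (Matrix.of k).PosSemidef) : PD k := by
  refine ⟨fun x y => ?_, fun v => ?_⟩
  · have h1 := h.1
    have := congrFun (congrFun h1 y) x
    simpa using this
  · have h2 := h.2 v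
    simp only [Finsupp.sum] at h2
    refine h2.trans_eq ?_
    refine Finset.sum_congr rfl fun x _ => Finset.sum_congr rfl fun y _ => ?_
    rw [star_trivial, Matrix.of_apply]
    ring

theorem PD.mul {X : Type u} {k l : X → X → ℝ} (hk : PD k) (hl : PD l) :
    PD (fun x y => k x y * l x y) := by
  apply PD.ofMatrix
  exact hk.toMatrix.hadamard hl.toMatrix

theorem PD.gram {X : Type u} {H : Type v} [NormedAddCommGroup H] [InnerProductSpace ℝ H]
    (P : X → H) : PD (fun x y => inner ℝ (P x) (P y)) := by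
  refine ⟨fun x y => real_inner_comm _ _, fun v => ?_⟩
  have h : ∑ x ∈ v.support, ∑ y ∈ v.support, inner ℝ (P x) (P y) * v x * v y
      = inner ℝ (∑ x ∈ v.support, v x • P x) (∑ y ∈ v.support, v y • P y) := by
    rw [sum_inner]
    refine Finset.sum_congr rfl fun x _ => ?_
    rw [inner_sum]
    refine Finset.sum_congr rfl fun y _ => ?_
    rw [real_inner_smul_left, real_inner_smul_right]
    ring
  rw [h]
  exact real_inner_self_nonneg

theorem PD.rank_one {X : Type u} (c : X → ℝ) : PD (fun x y => c x * c y) := by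
  have h := PD.gram c
  convert h using 3
  simp [mul_comm]

theorem PD.pow {X : Type u} {k : X → X → ℝ} (hk : PD k) (n : ℕ) :
    PD (fun x y => k x y ^ n) := by
  induction n with
  | zero =>
    have := PD.rank_one (fun _ : X => (1 : ℝ))
    simpa using this
  | succ n ih =>
    have := ih.mul hk
    simpa [pow_succ] using this

theorem PD.hasSum {X : Type u} {k : X → X → ℝ} {f : ℕ → X → X → ℝ} (hf : ∀ n, PD (f n))
    (h : ∀ x y, HasSum (fun n => f n x y) (k x y)) : PD k := by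
  refine ⟨fun x y => ?_, fun v => ?_⟩
  · have h1 := h x y
    have h2 := h y x
    have h3 : (fun n => f n x y) = fun n => f n y x := by
      funext n
      exact (hf n).1 x y
    rw [h3] at h1
    exact h1.unique h2
  · have h1 : HasSum (fun n => ∑ x ∈ v.support, ∑ y ∈ v.support, f n x y * v x * v y)
        (∑ x ∈ v.support, ∑ y ∈ v.support, k x y * v x * v y) := by
      refine hasSum_sum fun x _ => hasSum_sum fun y _ => ?_
      exact ((h x y).mul_right _).mul_right _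
    exact h1.nonneg fun n => (hf n).2 v

/-- the kernel as a positive definite function -/
theorem kernel_pd {X : Type u} {H : Type v} [NormedAddCommGroup H] [InnerProductSpace ℝ H]
    (a : X → ℝ) (φ : X → H) :
    PD (fun x y => 4 * a x ^ 2 * a y ^ 2 / (a x ^ 2 + a y ^ 2 + ‖φ x - φ y‖ ^ 2)) := by
  set A : X → ℝ := fun x => a x ^ 2 + ‖φ x‖ ^ 2 with hA
  have hA0 : ∀ x, 0 ≤ A x := fun x => by simp only [hA]; positivity
  set P : X → WithLp 2 (ℝ × H) := fun x =>
    WithLp.toLp 2 ((A x - 1) / (A x + 1), (2 / (A x + 1)) • φ x) with hP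
  set c : X → ℝ := fun x => 2 * Real.sqrt 2 * a x ^ 2 / (A x + 1) with hc
  have hPP : ∀ x y, inner ℝ (P x) (P y) =
      ((A x - 1) * (A y - 1) + 4 * inner ℝ (φ x) (φ y)) / ((A x + 1) * (A y + 1)) := by
    intro x y
    have h1 := hA0 x
    have h2 := hA0 y
    simp only [hP, WithLp.prod_inner_apply]
    rw [real_inner_smul_left, real_inner_smul_right]
    have h3 : inner ℝ ((A x - 1) / (A x + 1)) ((A y - 1) / (A y + 1))
      = ((A x - 1) / (A x + 1)) * ((A y - 1) / (A y + 1)) := by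
      simp [mul_comm]
    rw [h3]
    field_simp
    ring
  have hn : ∀ x, ‖P x‖ ^ 2 = 1 - 4 * a x ^ 2 / (A x + 1) ^ 2 := by
    intro x
    rw [← real_inner_self_eq_norm_sq, hPP, real_inner_self_eq_norm_sq]
    have h1 := hA0 x
    have h2 : ‖φ x‖ ^ 2 = A x - a x ^ 2 := by simp [hA]
    rw [h2]
    field_simp
    ring
  have hlt : ∀ x y, a x ≠ 0 → a y ≠ 0 → |inner ℝ (P x) (P y)| < 1 := by
    intro x y hx hy
    have h1 : ∀ x, a x ≠ 0 → ‖P x‖ < 1 := by
      intro x hx
      have h2 := hn x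
      have h3 : 0 < 4 * a x ^ 2 / (A x + 1) ^ 2 := by
        have := hA0 x
        have h4 : 0 < a x ^ 2 := by positivity
        positivity
      by_contra hcon
      push Not at hcon
      nlinarith
    refine (abs_real_inner_le_norm _ _).trans_lt ?_
    have h2 := h1 x hx
    have h3 := h1 y hy
    have h4 := norm_nonneg (P x)
    have h5 := norm_nonneg (P y)
    nlinarith
  refine PD.hasSum (f := fun n x y => (c x * c y) * inner ℝ (P x) (P y) ^ n)
    (fun n => (PD.rank_one c).mul ((PD.gram P).pow n)) fun x y => ?_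
  by_cases hx : a x = 0
  · have : c x = 0 := by simp [hc, hx]
    simp only [this, hx]
    simp [hasSum_zero]
  by_cases hy : a y = 0
  · have : c y = 0 := by simp [hc, hy]
    simp only [this, hy]
    simp [hasSum_zero]
  have h1 := (hasSum_geometric_of_abs_lt_one (hlt x y hx hy)).mul_left (c x * c y)
  suffices hs : 4 * a x ^ 2 * a y ^ 2 / (a x ^ 2 + a y ^ 2 + ‖φ x - φ y‖ ^ 2)
      = c x * c y * (1 - inner ℝ (P x) (P y))⁻¹ by
    rw [hs]; exact h1
  rw [hPP]
  have h2 := hA0 x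
  have h3 := hA0 y
  have h4 : ‖φ x - φ y‖ ^ 2 = ‖φ x‖ ^ 2 - 2 * inner ℝ (φ x) (φ y) + ‖φ y‖ ^ 2 :=
    norm_sub_sq_real _ _
  have h5 : 0 < a x ^ 2 + a y ^ 2 + ‖φ x - φ y‖ ^ 2 := by positivity
  have h6 : a x ^ 2 + a y ^ 2 + ‖φ x - φ y‖ ^ 2 = A x + A y - 2 * inner ℝ (φ x) (φ y) := by
    simp only [hA]; rw [h4]; ring
  have h7 : (1 - ((A x - 1) * (A y - 1) + 4 * inner ℝ (φ x) (φ y)) / ((A x + 1) * (A y + 1)))
      = 2 * (A x + A y - 2 * inner ℝ (φ x) (φ y)) / ((A x + 1) * (A y + 1)) := by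
    field_simp
    ring
  rw [h7, h6]
  rw [h6] at h5
  have h8 : c x * c y = 8 * a x ^ 2 * a y ^ 2 / ((A x + 1) * (A y + 1)) := by
    simp only [hc]
    have h9 : Real.sqrt 2 * Real.sqrt 2 = 2 := Real.mul_self_sqrt (by norm_num)
    calc 2 * √2 * a x ^ 2 / (A x + 1) * (2 * √2 * a y ^ 2 / (A y + 1))
        = (√2 * √2) * (4 * a x ^ 2 * a y ^ 2 / ((A x + 1) * (A y + 1))) := by
          field_simp
          ring
      _ = 8 * a x ^ 2 * a y ^ 2 / ((A x + 1) * (A y + 1)) := by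
          rw [h9]; ring
  rw [h8]
  field_simp
  norm_num

/-- the kernel `(2ab)^2/(a^2+b^2+|u-u'|^2)` is positive definite -/
theorem kernel_map {X : Type u} {H : Type v} [NormedAddCommGroup H] [InnerProductSpace ℝ H]
    (a : X → ℝ) (ha : ∀ x, 0 ≤ a x) (φ : X → H) :
    ∃ (K : Type u) (_ : NormedAddCommGroup K) (_ : InnerProductSpace ℝ K) (_ : CompleteSpace K)
      (T : X → K), ∀ x y, ‖T x - T y‖ ^ 2 =
        2 * ((a x ^ 2 - a y ^ 2) ^ 2 + (a x ^ 2 + a y ^ 2) * ‖φ x - φ y‖ ^ 2) /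
          (a x ^ 2 + a y ^ 2 + ‖φ x - φ y‖ ^ 2) := by
  have _ := ha
  have hk := kernel_pd a φ
  obtain ⟨K, i1, i2, i3, T, hT⟩ := kernel_embed _ hk.1 hk.2
  refine ⟨K, i1, i2, i3, T, fun x y => ?_⟩
  rw [norm_sub_sq_real, ← real_inner_self_eq_norm_sq, ← real_inner_self_eq_norm_sq, hT, hT, hT]
  simp only [sub_self, norm_zero]
  have key : ∀ x : X, 4 * a x ^ 2 * a x ^ 2 / (a x ^ 2 + a x ^ 2 + 0 ^ 2) = 2 * a x ^ 2 := by
    intro x
    by_cases hx : a x = 0
    · simp [hx]
    · field_simp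
      ring
  rw [key, key]
  by_cases h0 : a x ^ 2 + a y ^ 2 + ‖φ x - φ y‖ ^ 2 = 0
  · have hx : a x ^ 2 = 0 := by nlinarith [sq_nonneg (a x), sq_nonneg (a y), sq_nonneg ‖φ x - φ y‖]
    have hy : a y ^ 2 = 0 := by nlinarith [sq_nonneg (a x), sq_nonneg (a y), sq_nonneg ‖φ x - φ y‖]
    simp [hx, hy]
  · field_simp
    ring

/-- the consequences which are used -/
theorem kernel_bounds {X : Type u} {H : Type v} [NormedAddCommGroup H] [InnerProductSpace ℝ H]
    (a : X → ℝ) (ha : ∀ x, 0 ≤ a x) (φ : X → H) :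
    ∃ (K : Type u) (_ : NormedAddCommGroup K) (_ : InnerProductSpace ℝ K) (_ : CompleteSpace K)
      (T : X → K),
      (∀ x y, ‖T x - T y‖ ^ 2 ≤ 4 * (a x - a y) ^ 2 + 2 * ‖φ x - φ y‖ ^ 2) ∧
      (∀ x y, a x = 0 → a y = 0 → T x = T y) ∧
      (∀ x y, min (a x ^ 2) (‖φ x - φ y‖ ^ 2) ≤ ‖T x - T y‖ ^ 2) := by
  obtain ⟨K, i1, i2, i3, T, hT⟩ := kernel_map a ha φ
  refine ⟨K, i1, i2, i3, T, fun x y => ?_, fun x y hx hy => ?_, fun x y => ?_⟩
  · rw [hT]
    have h1 := ha x
    have h2 := ha y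
    have h3 := sq_nonneg ‖φ x - φ y‖
    set t := ‖φ x - φ y‖ ^ 2 with ht
    rcases (by positivity : 0 ≤ a x ^ 2 + a y ^ 2 + t).eq_or_lt with h0 | h0
    · rw [← h0]
      simp only [div_zero]
      positivity
    · rw [div_le_iff₀ h0]
      nlinarith [mul_nonneg (sq_nonneg (a x - a y)) h3, sq_nonneg ((a x - a y) ^ 2), mul_nonneg h3 h3,
        mul_nonneg (sq_nonneg (a x - a y)) (mul_nonneg h1 h2)]
  · have := hT x y
    rw [hx, hy] at this
    have h2 : ‖T x - T y‖ ^ 2 = 0 := by rw [this]; simp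
    have h3 : ‖T x - T y‖ = 0 := by nlinarith
    exact sub_eq_zero.mp (norm_eq_zero.mp h3)
  · rw [hT]
    have h3 := sq_nonneg ‖φ x - φ y‖
    set t := ‖φ x - φ y‖ ^ 2 with ht
    have h4 := sq_nonneg (a x)
    have h5 := sq_nonneg (a y)
    rcases (by positivity : 0 ≤ a x ^ 2 + a y ^ 2 + t).eq_or_lt with h0 | h0
    · rw [← h0]
      simp only [div_zero]
      refine (min_le_left _ _).trans ?_
      nlinarith
    · rw [le_div_iff₀ h0]
      rcases le_total (a x ^ 2) t with h | h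
      · rw [min_eq_left h]
        nlinarith [mul_nonneg h4 h5, mul_nonneg h4 h3, mul_nonneg h5 h3, sq_nonneg (a x ^ 2 - a y ^ 2), mul_nonneg h4 (sub_nonneg.2 h), mul_nonneg h5 (sub_nonneg.2 h)]
      · rw [min_eq_right h]
        nlinarith [mul_nonneg h4 h5, mul_nonneg h4 h3, mul_nonneg h5 h3, sq_nonneg (a x ^ 2 - a y ^ 2), mul_nonneg h3 (sub_nonneg.2 h)]

end Pool.Agent.Lib.MP_caca3f_an.Ext
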