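import Mathlib

/-!
# JOB B5. Random orders
-/

namespace Pool.Agent.Lib.MP_caca3f_an.Ext

open Finset

universe v

variable {ι : Type v} [Fintype ι] [DecidableEq ι]

/-- the events that `l` is the first element of `A`, `l ∈ A`, partition the orders -/
theorem sum_first (A : Finset ι) (hA : A.Nonempty) :
    ∑ l ∈ A, (univ.filter (fun σ : ι ≃ Fin (Fintype.card ι) =>
      ∀ m ∈ A, m ≠ l → σ l < σ m)).card = (Fintype.card ι).factorial := by
  have h1 : ∀ l ∈ A, (univ.filter (fun σ : ι ≃ Fin (Fintype.card ι) =>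
      ∀ m ∈ A, m ≠ l → σ l < σ m)).card =
      ∑ σ : ι ≃ Fin (Fintype.card ι), if (∀ m ∈ A, m ≠ l → σ l < σ m) then 1 else 0 := by
    intro l _
    rw [Finset.card_filter]
  rw [Finset.sum_congr rfl h1, Finset.sum_comm]
  have h2 : ∀ σ : ι ≃ Fin (Fintype.card ι),
      (∑ l ∈ A, if (∀ m ∈ A, m ≠ l → σ l < σ m) then 1 else 0) = 1 := by
    intro σ
    obtain ⟨l0, hl0, hmin⟩ := Finset.exists_min_image A σ hA
    rw [Finset.sum_eq_single l0]
    · rw [if_pos]
      intro m hm hne
      exact lt_of_le_of_ne (hmin m hm) (fun h => hne (σ.injective h).symm)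
    · intro l hl hne
      rw [if_neg]
      intro h
      have := h l0 hl0 (Ne.symm hne)
      exact absurd this (not_lt.mpr (hmin l hl))
    · intro h
      exact absurd hl0 h
  rw [Finset.sum_congr rfl (fun σ _ => h2 σ)]
  rw [Finset.sum_const, Finset.card_univ, smul_eq_mul, mul_one]
  rw [Fintype.card_equiv (Fintype.equivFin ι)]

/-- all elements of `A` have the same number of orders in which they come first -/
theorem first_symm (A : Finset ι) (l l' : ι) (hl : l ∈ A) (hl' : l' ∈ A) :
    (univ.filter (fun σ : ι ≃ Fin (Fintype.card ι) =>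
      ∀ m ∈ A, m ≠ l → σ l < σ m)).card =
    (univ.filter (fun σ : ι ≃ Fin (Fintype.card ι) =>
      ∀ m ∈ A, m ≠ l' → σ l' < σ m)).card := by
  have hsw : ∀ m ∈ A, Equiv.swap l l' m ∈ A := by
    intro m hm
    by_cases h1 : m = l
    · rw [h1, Equiv.swap_apply_left]; exact hl'
    by_cases h2 : m = l'
    · rw [h2, Equiv.swap_apply_right]; exact hl
    rw [Equiv.swap_apply_of_ne_of_ne h1 h2]; exact hm
  apply Finset.card_bij' (fun σ _ => (Equiv.swap l l').trans σ)
    (fun σ _ => (Equiv.swap l l').trans σ)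
  · intro σ hσ
    rw [Finset.mem_filter] at hσ ⊢
    refine ⟨Finset.mem_univ _, ?_⟩
    intro m hm hne
    rw [Equiv.trans_apply, Equiv.trans_apply, Equiv.swap_apply_right]
    apply hσ.2 _ (hsw m hm)
    intro h
    apply hne
    have := congrArg (Equiv.swap l l') h
    rwa [Equiv.swap_apply_self, Equiv.swap_apply_left] at this
  · intro σ hσ
    rw [Finset.mem_filter] at hσ ⊢
    refine ⟨Finset.mem_univ _, ?_⟩
    intro m hm hne
    rw [Equiv.trans_apply, Equiv.trans_apply, Equiv.swap_apply_left]
    apply hσ.2 _ (hsw m hm)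
    intro h
    apply hne
    have := congrArg (Equiv.swap l l') h
    rwa [Equiv.swap_apply_self, Equiv.swap_apply_right] at this
  · intro σ _
    ext x
    simp
  · intro σ _
    ext x
    simp

/-- `l` is the first element of `A` in exactly `n!/|A|` orders -/
theorem first_count (A : Finset ι) (l : ι) (hl : l ∈ A) :
    (A.card : ℝ) * ((univ.filter (fun σ : ι ≃ Fin (Fintype.card ι) =>
      ∀ m ∈ A, m ≠ l → σ l < σ m)).card : ℝ) = ((Fintype.card ι).factorial : ℝ) := by
  have h := sum_first A ⟨l, hl⟩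
  rw [Finset.sum_congr rfl (fun l' hl' => first_symm A l' l hl' hl), Finset.sum_const,
    smul_eq_mul] at h
  exact_mod_cast h

theorem sum_inv_rank (a : ι → ℝ) (S : Finset ι) :
    ∑ l ∈ S, (1 : ℝ) / ((S.filter (fun m => a m ≤ a l)).card : ℝ) ≤
      ∑ i ∈ Finset.range S.card, (1 : ℝ) / ((i : ℝ) + 1) := by
  induction S using Finset.induction_on_max_value a with
  | empty => simp
  | insert x S hx hmax ih =>
    rw [Finset.sum_insert hx, Finset.card_insert_of_notMem hx, Finset.sum_range_succ]
    have h1 : ((insert x S).filter (fun m => a m ≤ a x)) = insert x S := by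
      apply Finset.filter_true_of_mem
      intro m hm
      rcases Finset.mem_insert.mp hm with rfl | hm
      · exact le_rfl
      · exact hmax m hm
    rw [h1, Finset.card_insert_of_notMem hx]
    have h2 : ∑ l ∈ S, (1 : ℝ) / (((insert x S).filter (fun m => a m ≤ a l)).card : ℝ) ≤
        ∑ l ∈ S, (1 : ℝ) / ((S.filter (fun m => a m ≤ a l)).card : ℝ) := by
      apply Finset.sum_le_sum
      intro l hl
      have hpos : 0 < (S.filter (fun m => a m ≤ a l)).card :=
        Finset.card_pos.mpr ⟨l, Finset.mem_filter.mpr ⟨hl, le_rfl⟩⟩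
      apply one_div_le_one_div_of_le (by exact_mod_cast hpos)
      exact_mod_cast Finset.card_le_card
        (Finset.filter_subset_filter _ (Finset.subset_insert x S))
    push_cast
    linarith

/-- the expected number of records is at most `1 + log n` -/
theorem records_le (a : ι → ℝ) (k : ℕ) (hk : Fintype.card ι ≤ k) :
    ∑ σ : ι ≃ Fin (Fintype.card ι),
      ((univ.filter (fun l => ∀ m, σ m < σ l → a l < a m)).card : ℝ) ≤
      (1 + Real.log k) * ((Fintype.card ι).factorial : ℝ) := by
  have h1 : ∀ σ : ι ≃ Fin (Fintype.card ι),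
      ((univ.filter (fun l => ∀ m, σ m < σ l → a l < a m)).card : ℝ) =
      ∑ l : ι, if (∀ m, σ m < σ l → a l < a m) then (1 : ℝ) else 0 := by
    intro σ
    rw [Finset.card_filter]
    push_cast
    rfl
  rw [Finset.sum_congr rfl (fun σ _ => h1 σ), Finset.sum_comm]
  have h2 : ∀ l : ι, (∑ σ : ι ≃ Fin (Fintype.card ι),
      if (∀ m, σ m < σ l → a l < a m) then (1 : ℝ) else 0) =
      ((Fintype.card ι).factorial : ℝ) * (1 / ((univ.filter (fun m => a m ≤ a l)).card : ℝ)) := by
    intro l
    have hl : l ∈ univ.filter (fun m => a m ≤ a l) :=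
      Finset.mem_filter.mpr ⟨Finset.mem_univ _, le_rfl⟩
    have hc := first_count (univ.filter (fun m => a m ≤ a l)) l hl
    have hpos : (0 : ℝ) < ((univ.filter (fun m => a m ≤ a l)).card : ℝ) := by
      exact_mod_cast Finset.card_pos.mpr ⟨l, hl⟩
    have heq : ∀ σ : ι ≃ Fin (Fintype.card ι),
        (∀ m, σ m < σ l → a l < a m) ↔
        (∀ m ∈ univ.filter (fun m => a m ≤ a l), m ≠ l → σ l < σ m) := by
      intro σ
      constructor
      · intro h m hm hne
        have hm' := (Finset.mem_filter.mp hm).2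
        rcases lt_trichotomy (σ m) (σ l) with h3 | h3 | h3
        · exact absurd (h m h3) (not_lt.mpr hm')
        · exact absurd (σ.injective h3) hne
        · exact h3
      · intro h m hm
        by_contra hcon
        have h3 := h m (Finset.mem_filter.mpr ⟨Finset.mem_univ _, not_lt.mp hcon⟩)
          (by rintro rfl; exact lt_irrefl _ hm)
        exact absurd h3 (not_lt.mpr hm.le)
    have h4 : (∑ σ : ι ≃ Fin (Fintype.card ι),
        if (∀ m, σ m < σ l → a l < a m) then (1 : ℝ) else 0) =
        ((univ.filter (fun σ : ι ≃ Fin (Fintype.card ι) =>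
          ∀ m ∈ univ.filter (fun m => a m ≤ a l), m ≠ l → σ l < σ m)).card : ℝ) := by
      rw [Finset.card_filter]
      push_cast
      apply Finset.sum_congr rfl
      intro σ _
      exact if_congr (heq σ) rfl rfl
    rw [h4, ← hc]
    field_simp
  rw [Finset.sum_congr rfl (fun l _ => h2 l), ← Finset.mul_sum, mul_comm]
  apply mul_le_mul_of_nonneg_right _ (by positivity)
  have h3 := sum_inv_rank a (univ : Finset ι)
  rw [Finset.card_univ] at h3
  refine h3.trans ?_
  have h4 : ∑ i ∈ Finset.range (Fintype.card ι), (1 : ℝ) / ((i : ℝ) + 1) =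
      ((harmonic (Fintype.card ι) : ℚ) : ℝ) := by
    rw [harmonic]
    push_cast
    apply Finset.sum_congr rfl
    intro i _
    rw [one_div]
  rw [h4]
  refine (harmonic_le_one_add_log _).trans ?_
  rcases Nat.eq_zero_or_pos (Fintype.card ι) with h0 | h0
  · rw [h0]
    simp only [Nat.cast_zero, Real.log_zero]
    have : 0 ≤ Real.log k := Real.log_natCast_nonneg k
    linarith
  · have : Real.log (Fintype.card ι) ≤ Real.log k :=
      Real.log_le_log (by exact_mod_cast h0) (by exact_mod_cast hk)
    linarith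

/-- the first element of `N` lies in a given large subset with probability at least `1/2` -/
theorem first_mem (N N' : Finset ι) (hsub : N' ⊆ N) (hne : N.Nonempty)
    (hcard : N.card ≤ 2 * N'.card) :
    ((Fintype.card ι).factorial : ℝ) / 2 ≤
      ((univ.filter (fun σ : ι ≃ Fin (Fintype.card ι) =>
        ∃ l ∈ N', ∀ m ∈ N, m ≠ l → σ l < σ m)).card : ℝ) := by
  have h1 : (univ.filter (fun σ : ι ≃ Fin (Fintype.card ι) =>
        ∃ l ∈ N', ∀ m ∈ N, m ≠ l → σ l < σ m)) =
      N'.biUnion (fun l => univ.filter (fun σ : ι ≃ Fin (Fintype.card ι) =>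
        ∀ m ∈ N, m ≠ l → σ l < σ m)) := by
    ext σ
    simp only [Finset.mem_filter, Finset.mem_univ, true_and, Finset.mem_biUnion]
  rw [h1, Finset.card_biUnion]
  · push_cast
    have hpos : (0 : ℝ) < (N.card : ℝ) := by exact_mod_cast Finset.card_pos.mpr hne
    have h2 : ∀ l ∈ N', ((univ.filter (fun σ : ι ≃ Fin (Fintype.card ι) =>
        ∀ m ∈ N, m ≠ l → σ l < σ m)).card : ℝ) =
        ((Fintype.card ι).factorial : ℝ) / (N.card : ℝ) := by
      intro l hl
      have := first_count N l (hsub hl)
      rw [eq_div_iff hpos.ne', ← this]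
      ring
    rw [Finset.sum_congr rfl h2, Finset.sum_const, nsmul_eq_mul]
    have h3 : (N.card : ℝ) ≤ 2 * (N'.card : ℝ) := by exact_mod_cast hcard
    have hf : (0 : ℝ) ≤ ((Fintype.card ι).factorial : ℝ) := by positivity
    rw [← mul_div_assoc, div_le_div_iff₀ (by norm_num) hpos]
    nlinarith
  · intro l hl l' hl' hne'
    rw [Function.onFun, Finset.disjoint_left]
    intro σ h3 h4
    have h5 := (Finset.mem_filter.mp h3).2 l' (hsub hl') (Ne.symm hne')
    have h6 := (Finset.mem_filter.mp h4).2 l (hsub hl) hne'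
    exact absurd h5 (not_lt.mpr h6.le)

/-- pigeonhole for a decreasing chain of finite sets -/
theorem chain_pigeon (I : ℕ) (N : ℕ → Finset ι) (hmono : ∀ i, N (i + 1) ⊆ N i)
    (hne : (N I).Nonempty) (hI : Fintype.card ι < 2 ^ I) :
    ∃ i < I, (N i).card ≤ 2 * (N (i + 1)).card := by
  by_contra hcon
  push Not at hcon
  have h1 : ∀ i ≤ I, 2 ^ i * (N i).card ≤ (N 0).card := by
    intro i
    induction i with
    | zero => intro _; simp
    | succ j ih =>
      intro hj
      have h2 := hcon j (by omega)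
      have h3 := ih (by omega)
      calc 2 ^ (j + 1) * (N (j + 1)).card = 2 ^ j * (2 * (N (j + 1)).card) := by ring
        _ ≤ 2 ^ j * (N j).card := Nat.mul_le_mul_left _ h2.le
        _ ≤ (N 0).card := h3
  have h2 := h1 I le_rfl
  have h3 : 1 ≤ (N I).card := Finset.card_pos.mpr hne
  have h4 : (N 0).card ≤ Fintype.card ι := Finset.card_le_univ _
  have h5 : 2 ^ I ≤ 2 ^ I * (N I).card := Nat.le_mul_of_pos_right _ h3
  omega

end Pool.Agent.Lib.MP_caca3f_an.Ext
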