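import Pool.Agent.Lib.MP_caca3f_an.Ext.Defs
import Pool.Agent.Lib.MP_caca3f_an.Ext.Kernel
import Pool.Agent.Lib.MP_caca3f_an.Ext.Order

/-!
# JOB B6. Embedding of a finite space from the extension property
-/

namespace Pool.Agent.Lib.MP_caca3f_an.Ext

open Finset

universe u v w

section aux

variable {X : Type u} [MetricSpace X] {ι : Type v} [Fintype ι]

/-- distance to the union of the classes preceding `l`, capped at `Δ` -/
noncomputable def aval (C : Cover X ι) (Δ : ℝ) (σ : ι ≃ Fin (Fintype.card ι)) (l : ι)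
    (x : X) : ℝ :=
  univ.inf' ⟨l, mem_univ l⟩ (fun m => if σ m < σ l then C.δ m x else Δ)

/-- the activity function -/
noncomputable def wval (C : Cover X ι) (Δ : ℝ) (σ : ι ≃ Fin (Fintype.card ι)) (l : ι)
    (x : X) : ℝ :=
  max (aval C Δ σ l x - C.δ l x) 0

theorem aval_lip (C : Cover X ι) (Δ : ℝ) (σ : ι ≃ Fin (Fintype.card ι)) (l : ι) (x y : X) :
    aval C Δ σ l x ≤ aval C Δ σ l y + dist x y := by
  rw [← sub_le_iff_le_add]
  unfold aval
  rw [Finset.le_inf'_iff]
  intro m _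
  rw [sub_le_iff_le_add]
  refine (Finset.inf'_le _ (mem_univ m)).trans ?_
  split_ifs
  · exact C.δ_le m x y
  · linarith [dist_nonneg (x := x) (y := y)]

theorem aval_le (C : Cover X ι) (Δ : ℝ) (σ : ι ≃ Fin (Fintype.card ι)) {l m : ι} (x : X)
    (h : σ m < σ l) : aval C Δ σ l x ≤ C.δ m x := by
  unfold aval
  refine (Finset.inf'_le _ (mem_univ m)).trans ?_
  rw [if_pos h]

theorem le_aval (C : Cover X ι) {Δ r : ℝ} (σ : ι ≃ Fin (Fintype.card ι)) {l : ι} (x : X)
    (hr : r ≤ Δ) (h : ∀ m, σ m < σ l → r ≤ C.δ m x) : r ≤ aval C Δ σ l x := by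
  unfold aval
  rw [Finset.le_inf'_iff]
  intro m _
  split_ifs with hm
  · exact h m hm
  · exact hr

theorem wval_nonneg (C : Cover X ι) (Δ : ℝ) (σ : ι ≃ Fin (Fintype.card ι)) (l : ι) (x : X) :
    0 ≤ wval C Δ σ l x := le_max_right _ _

theorem wval_lip1 (C : Cover X ι) (Δ : ℝ) (σ : ι ≃ Fin (Fintype.card ι)) (l : ι) (x y : X) :
    wval C Δ σ l x ≤ wval C Δ σ l y + 2 * dist x y := by
  have h1 := aval_lip C Δ σ l x y
  have h2 := C.δ_le l y x
  rw [dist_comm y x] at h2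
  have h3 : aval C Δ σ l y - C.δ l y ≤ wval C Δ σ l y := le_max_left _ _
  refine max_le (by linarith) ?_
  have := wval_nonneg C Δ σ l y
  have := dist_nonneg (x := x) (y := y)
  linarith

theorem wval_lip (C : Cover X ι) (Δ : ℝ) (σ : ι ≃ Fin (Fintype.card ι)) (l : ι) (x y : X) :
    (wval C Δ σ l x - wval C Δ σ l y) ^ 2 ≤ 4 * dist x y ^ 2 := by
  have h1 := wval_lip1 C Δ σ l x y
  have h2 := wval_lip1 C Δ σ l y x
  rw [dist_comm y x] at h2
  have h3 : |wval C Δ σ l x - wval C Δ σ l y| ≤ 2 * dist x y := by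
    rw [abs_sub_le_iff]
    constructor <;> linarith
  calc (wval C Δ σ l x - wval C Δ σ l y) ^ 2 = |wval C Δ σ l x - wval C Δ σ l y| ^ 2 := by
        rw [sq_abs]
    _ ≤ (2 * dist x y) ^ 2 := by
        exact pow_le_pow_left₀ (abs_nonneg _) h3 2
    _ = 4 * dist x y ^ 2 := by ring

theorem wval_eq_zero (C : Cover X ι) (Δ : ℝ) (σ : ι ≃ Fin (Fintype.card ι)) (l : ι) (x : X)
    (h : ¬ ∀ m, σ m < σ l → C.δ l x < C.δ m x) : wval C Δ σ l x = 0 := by
  push Not at h
  obtain ⟨m, hm, h2⟩ := h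
  have := aval_le C Δ σ x hm
  unfold wval
  exact max_eq_right (by linarith)

end aux

theorem δ_sq_lip {X : Type u} [MetricSpace X] {ι : Type v} (C : Cover X ι) (l : ι) (x y : X) :
    (C.δ l x - C.δ l y) ^ 2 ≤ dist x y ^ 2 := by
  have h1 := C.δ_le l x y
  have h2 := C.δ_le l y x
  rw [dist_comm y x] at h2
  rw [← sq_abs (C.δ l x - C.δ l y)]
  refine pow_le_pow_left₀ (abs_nonneg _) ?_ 2
  rw [abs_sub_le_iff]
  constructor <;> linarith

/-- the key lower bound for one point being close to the class -/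
theorem sep_lower {X : Type u} [MetricSpace X] {ι : Type v}
    (C : Cover X ι) (D : ℝ) (hD : 1 ≤ D) {H : Type w} [NormedAddCommGroup H]
    [InnerProductSpace ℝ H] (φ : X → H) (l : ι)
    (hφ1 : ∀ x ∈ C.B l, ∀ y ∈ C.B l, dist x y ≤ ‖φ x - φ y‖)
    (C0 : ℝ) (hC0 : 1 ≤ C0) (F : X → H)
    (hF : ∀ x, ‖F x - D⁻¹ • φ (C.z l x)‖ ≤ C0 * C.δ l x)
    (p q : X) (τ : ℝ) (hτ : 0 ≤ τ) (hs : dist p q = 4 * (1 + C0 * D) * τ)
    (hp : C.δ l p ≤ τ) :
    τ ^ 2 ≤ ‖F p - F q‖ ^ 2 + (C.δ l p - C.δ l q) ^ 2 := by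
  have hD0 : 0 < D := by linarith
  by_cases hq : 2 * τ ≤ C.δ l q
  · have h1 : τ ≤ C.δ l q - C.δ l p := by linarith
    have h2 : τ ^ 2 ≤ (C.δ l q - C.δ l p) ^ 2 := pow_le_pow_left₀ hτ h1 2
    have h3 : 0 ≤ ‖F p - F q‖ ^ 2 := sq_nonneg _
    nlinarith
  · push Not at hq
    -- distance between the projections
    have hz : dist p q ≤ C.δ l p + dist (C.z l p) (C.z l q) + C.δ l q := by
      calc dist p q ≤ dist p (C.z l p) + dist (C.z l p) (C.z l q) + dist (C.z l q) q :=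
            dist_triangle4 _ _ _ _
        _ = _ := by rw [Cover.δ, Cover.δ, dist_comm (C.z l q) q]
    have h1 : dist (C.z l p) (C.z l q) ≤ ‖φ (C.z l p) - φ (C.z l q)‖ :=
      hφ1 _ (C.zmem l p) _ (C.zmem l q)
    have h2 : D⁻¹ * ‖φ (C.z l p) - φ (C.z l q)‖ = ‖D⁻¹ • φ (C.z l p) - D⁻¹ • φ (C.z l q)‖ := by
      rw [← smul_sub, norm_smul, Real.norm_of_nonneg (inv_nonneg.mpr hD0.le)]
    have h3 : ‖D⁻¹ • φ (C.z l p) - D⁻¹ • φ (C.z l q)‖ ≤
        ‖F p - F q‖ + C0 * C.δ l p + C0 * C.δ l q := by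
      have e : D⁻¹ • φ (C.z l p) - D⁻¹ • φ (C.z l q) =
          (F p - F q) - (F p - D⁻¹ • φ (C.z l p)) + (F q - D⁻¹ • φ (C.z l q)) := by abel
      rw [e]
      refine (norm_add_le _ _).trans ?_
      have := norm_sub_le (F p - F q) (F p - D⁻¹ • φ (C.z l p))
      have := hF p
      have := hF q
      linarith
    have h4 : 4 * (1 + C0 * D) * τ - 3 * τ ≤ ‖φ (C.z l p) - φ (C.z l q)‖ := by linarith
    have h5 : D⁻¹ * (4 * (1 + C0 * D) * τ - 3 * τ) ≤ D⁻¹ * ‖φ (C.z l p) - φ (C.z l q)‖ :=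
      mul_le_mul_of_nonneg_left h4 (inv_nonneg.mpr hD0.le)
    have h6 : D⁻¹ * (4 * (1 + C0 * D) * τ - 3 * τ) = D⁻¹ * τ + 4 * C0 * τ := by
      field_simp
      ring
    have h7 : 0 ≤ D⁻¹ * τ := mul_nonneg (inv_nonneg.mpr hD0.le) hτ
    have h8 : C0 * C.δ l p ≤ C0 * τ := mul_le_mul_of_nonneg_left hp (by linarith)
    have h9 : C0 * C.δ l q ≤ C0 * (2 * τ) := mul_le_mul_of_nonneg_left hq.le (by linarith)
    have h10 : C0 * τ ≤ ‖F p - F q‖ := by
      rw [h6, h2] at h5
      linarith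
    have h11 : τ ≤ ‖F p - F q‖ := by nlinarith
    have h12 : τ ^ 2 ≤ ‖F p - F q‖ ^ 2 := pow_le_pow_left₀ hτ h11 2
    nlinarith [sq_nonneg (C.δ l p - C.δ l q)]

theorem finite_embedding {X : Type u} [Fintype X] [MetricSpace X] {ι : Type v} [Fintype ι]
    (C : Cover X ι) (D : ℝ) (hD : 1 ≤ D) (H : ι → Type w)
    [∀ l, NormedAddCommGroup (H l)] [∀ l, InnerProductSpace ℝ (H l)] (φ : ∀ l, X → H l)
    (hφ1 : ∀ l, ∀ x ∈ C.B l, ∀ y ∈ C.B l, dist x y ≤ ‖φ l x - φ l y‖)
    (hφ2 : ∀ l, ∀ x ∈ C.B l, ∀ y ∈ C.B l, ‖φ l x - φ l y‖ ≤ D * dist x y)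
    (C0 V : ℝ) (hC0 : 1 ≤ C0) (hV : 0 ≤ V) (hext : ∀ l, ExtProp.{u, v, w} C C0 V l)
    (k : ℕ) (hk1 : 1 ≤ k) (hk : Fintype.card ι ≤ k)
    (I : ℕ) (hI : Fintype.card ι < 2 ^ I) :
    ∃ (K : Type (max u v)) (_ : NormedAddCommGroup K) (_ : InnerProductSpace ℝ K) (F : X → K),
      ∀ x y, dist x y ^ 2 ≤ ‖F x - F y‖ ^ 2 ∧
        ‖F x - F y‖ ^ 2 ≤
          256 * (18 + 2 * V ^ 2) * (1 + Real.log k) * (1 + C0 * D) ^ 2 * (I : ℝ) ^ 2
            * dist x y ^ 2 := by
  classical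
  have hD0 : 0 < D := by linarith
  -- extensions
  have h0 := fun l => hext l (H l) 1 (fun x => D⁻¹ • φ l x) zero_le_one (by
    intro x hx y hy
    rw [← smul_sub, norm_smul, Real.norm_of_nonneg (inv_nonneg.mpr hD0.le), one_mul]
    calc D⁻¹ * ‖φ l x - φ l y‖ ≤ D⁻¹ * (D * dist x y) :=
          mul_le_mul_of_nonneg_left (hφ2 l x hx y hy) (inv_nonneg.mpr hD0.le)
      _ = dist x y := by field_simp)
  choose F hF1 hF2 hF3 using h0
  simp only [mul_one] at hF2 hF3
  -- the maps `u_l`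
  set U : ∀ l : ι, X → WithLp 2 (H l × ℝ) := fun l x => WithLp.toLp 2 (F l x, C.δ l x) with hU
  have hUn : ∀ l x y, ‖U l x - U l y‖ ^ 2 = ‖F l x - F l y‖ ^ 2 + (C.δ l x - C.δ l y) ^ 2 := by
    intro l x y
    rw [WithLp.prod_norm_sq_eq_of_L2]
    simp [hU]
  obtain ⟨Δ, hΔ⟩ : ∃ Δ : ℝ, ∀ x y : X, dist x y ≤ Δ := by
    refine ⟨∑ a : X, ∑ b : X, dist a b, fun x y => ?_⟩
    calc dist x y ≤ ∑ b : X, dist x b :=
          Finset.single_le_sum (f := fun b : X => dist x b) (fun _ _ => dist_nonneg) (mem_univ y)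
      _ ≤ ∑ a : X, ∑ b : X, dist a b :=
          Finset.single_le_sum (f := fun a : X => ∑ b : X, dist a b)
            (fun _ _ => Finset.sum_nonneg (fun _ _ => dist_nonneg)) (mem_univ x)
  have hK := fun p : (ι ≃ Fin (Fintype.card ι)) × ι =>
    kernel_bounds (wval C Δ p.1 p.2) (wval_nonneg C Δ p.1 p.2) (U p.2)
  choose K instN instI instC T hT1 hT2 hT3 using hK
  set A : ℝ := 128 * (I : ℝ) ^ 2 * (1 + C0 * D) ^ 2 / ((Fintype.card ι).factorial : ℝ) with hA
  have hA0 : 0 ≤ A := by positivity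
  refine ⟨PiLp 2 K, inferInstance, inferInstance,
    fun x => Real.sqrt A • WithLp.toLp 2 (fun p => T p x), fun x y => ?_⟩
  have hnorm : ‖Real.sqrt A • WithLp.toLp 2 (fun p => T p x) -
      Real.sqrt A • WithLp.toLp 2 (fun p => T p y)‖ ^ 2 =
      A * ∑ σ : ι ≃ Fin (Fintype.card ι), ∑ l : ι, ‖T (σ, l) x - T (σ, l) y‖ ^ 2 := by
    rw [← smul_sub, norm_smul, mul_pow, Real.norm_of_nonneg (Real.sqrt_nonneg _),
      Real.sq_sqrt hA0, PiLp.norm_sq_eq_of_L2, Fintype.sum_prod_type]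
    simp
  rw [hnorm]
  have hfac : (0 : ℝ) < ((Fintype.card ι).factorial : ℝ) := by positivity
  constructor
  · -- lower bound
    rcases eq_or_ne x y with rfl | hxy
    · simp
    have hs : 0 < dist x y := dist_pos.mpr hxy
    obtain ⟨l0, hl0⟩ := C.cov x
    have hI1 : 1 ≤ I := by
      by_contra hcon
      have : I = 0 := by omega
      subst this
      have : 0 < Fintype.card ι := Fintype.card_pos_iff.mpr ⟨l0⟩
      simp at hI
      omega
    have hCD : 0 < 1 + C0 * D := by positivity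
    set τ0 : ℝ := dist x y / (4 * (1 + C0 * D)) with hτ0
    have hτ0pos : 0 < τ0 := by positivity
    have hsτ : dist x y = 4 * (1 + C0 * D) * τ0 := by
      rw [hτ0]; field_simp
    have hIr : (1 : ℝ) ≤ (I : ℝ) := by exact_mod_cast hI1
    set τ : ℕ → ℝ := fun i => τ0 * (1 - i / (2 * I)) with hτ
    have hτle : ∀ i, τ i ≤ τ0 := by
      intro i
      have : 0 ≤ (i : ℝ) / (2 * I) := by positivity
      simp only [hτ]
      nlinarith
    have hτI : 0 ≤ τ I := by
      have : (I : ℝ) / (2 * I) = 1 / 2 := by field_simp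
      simp only [hτ, this]
      linarith
    have hτstep : ∀ i, τ i - τ (i + 1) = τ0 / (2 * I) := by
      intro i
      simp only [hτ]
      push_cast
      field_simp
      ring
    have hstep0 : 0 ≤ τ0 / (2 * I) := by positivity
    set N : ℕ → Finset ι := fun i => univ.filter (fun m => min (C.δ m x) (C.δ m y) ≤ τ i) with hN
    have hmono : ∀ i, N (i + 1) ⊆ N i := by
      intro i m hm
      simp only [hN, mem_filter, mem_univ, true_and] at hm ⊢
      have := hτstep i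
      linarith
    have hne : (N I).Nonempty := by
      refine ⟨l0, ?_⟩
      simp only [hN, mem_filter, mem_univ, true_and]
      rw [C.δ_eq_zero hl0]
      exact (min_le_left _ _).trans hτI
    obtain ⟨i, hi, hcard⟩ := chain_pigeon I N hmono hne hI
    have hne' : (N i).Nonempty := by
      have hsub : ∀ a b, a ≤ b → N b ⊆ N a := by
        intro a b hab
        induction hab with
        | refl => exact subset_rfl
        | step _ ih => exact (hmono _).trans ih
      exact hne.mono (hsub i I hi.le)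
    obtain ⟨G, hgood, hG⟩ : ∃ G : Finset (ι ≃ Fin (Fintype.card ι)),
        ((Fintype.card ι).factorial : ℝ) / 2 ≤ (G.card : ℝ) ∧
        ∀ σ ∈ G, ∃ l ∈ N (i + 1), ∀ m ∈ N i, m ≠ l → σ l < σ m :=
      ⟨_, first_mem (N i) (N (i + 1)) (hmono i) hne' hcard,
        fun σ hσ => (Finset.mem_filter.mp hσ).2⟩
    -- for a good order the sum over `l` is large
    have hkey : ∀ σ : ι ≃ Fin (Fintype.card ι), (∃ l ∈ N (i + 1), ∀ m ∈ N i, m ≠ l → σ l < σ m) →
        (τ0 / (2 * I)) ^ 2 ≤ ∑ l : ι, ‖T (σ, l) x - T (σ, l) y‖ ^ 2 := by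
      rintro σ ⟨l, hl, hfirst⟩
      refine le_trans ?_ (Finset.single_le_sum
        (f := fun l => ‖T (σ, l) x - T (σ, l) y‖ ^ 2) (fun _ _ => sq_nonneg _) (mem_univ l))
      -- symmetric statement
      have hcore : ∀ p q : X, dist p q = 4 * (1 + C0 * D) * τ0 → C.δ l p ≤ τ (i + 1) →
          (∀ m, σ m < σ l → τ i ≤ C.δ m p) →
          (τ0 / (2 * I)) ^ 2 ≤ ‖T (σ, l) p - T (σ, l) q‖ ^ 2 := by
        intro p q hpq hp hm
        refine le_trans ?_ (hT3 (σ, l) p q)
        refine le_min ?_ ?_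
        · refine pow_le_pow_left₀ hstep0 ?_ 2
          have hΔ' : τ i ≤ Δ := by
            refine (hτle i).trans (le_trans ?_ (hΔ p q))
            rw [hpq]
            have hCD' : 0 ≤ C0 * D := by positivity
            nlinarith [mul_nonneg hCD' hτ0pos.le]
          have h1 : τ i ≤ aval C Δ σ l p := le_aval C σ p hΔ' hm
          have h2 := hτstep i
          calc τ0 / (2 * I) = τ i - τ (i + 1) := h2.symm
            _ ≤ aval C Δ σ l p - C.δ l p := by linarith
            _ ≤ wval C Δ σ l p := le_max_left _ _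
        · rw [hUn]
          have h1 := sep_lower C D hD (φ l) l (hφ1 l) C0 hC0 (F l) (hF2 l) p q τ0 hτ0pos.le hpq
            (hp.trans (hτle _))
          refine le_trans ?_ h1
          refine pow_le_pow_left₀ hstep0 ?_ 2
          exact div_le_self hτ0pos.le (by linarith)
      have hl' : min (C.δ l x) (C.δ l y) ≤ τ (i + 1) := by
        simpa only [hN, mem_filter, mem_univ, true_and] using hl
      have hnot : ∀ m, σ m < σ l → τ i < min (C.δ m x) (C.δ m y) := by
        intro m hm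
        by_contra hcon
        push Not at hcon
        have hmem : m ∈ N i := by
          simpa only [hN, mem_filter, mem_univ, true_and] using hcon
        have hml : m ≠ l := by
          rintro rfl
          exact lt_irrefl _ hm
        exact lt_asymm hm (hfirst m hmem hml)
      rcases min_le_iff.mp hl' with h | h
      · exact hcore x y hsτ h (fun m hm => ((hnot m hm).trans_le (min_le_left _ _)).le)
      · have := hcore y x (by rw [dist_comm]; exact hsτ) h
          (fun m hm => ((hnot m hm).trans_le (min_le_right _ _)).le)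
        rwa [norm_sub_rev] at this
    have hsum : ((Fintype.card ι).factorial : ℝ) / 2 * (τ0 / (2 * I)) ^ 2 ≤
        ∑ σ : ι ≃ Fin (Fintype.card ι), ∑ l : ι, ‖T (σ, l) x - T (σ, l) y‖ ^ 2 := by
      calc ((Fintype.card ι).factorial : ℝ) / 2 * (τ0 / (2 * I)) ^ 2
          ≤ (G.card : ℝ) * (τ0 / (2 * I)) ^ 2 := mul_le_mul_of_nonneg_right hgood (sq_nonneg _)
        _ = ∑ σ ∈ G, (τ0 / (2 * I)) ^ 2 := by
            rw [Finset.sum_const, nsmul_eq_mul]
        _ ≤ ∑ σ ∈ G, ∑ l : ι, ‖T (σ, l) x - T (σ, l) y‖ ^ 2 :=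
            Finset.sum_le_sum fun σ hσ => hkey σ (hG σ hσ)
        _ ≤ _ := Finset.sum_le_sum_of_subset_of_nonneg (Finset.subset_univ _)
            (fun _ _ _ => Finset.sum_nonneg fun _ _ => sq_nonneg _)
    calc dist x y ^ 2 = A * (((Fintype.card ι).factorial : ℝ) / 2 * (τ0 / (2 * I)) ^ 2) := by
          rw [hA, hsτ]
          field_simp
          ring
      _ ≤ _ := mul_le_mul_of_nonneg_left hsum hA0
  · -- upper bound
    set M : ℝ := (18 + 2 * V ^ 2) * dist x y ^ 2 with hM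
    have hM0 : 0 ≤ M := by positivity
    have hTle : ∀ p, ‖T p x - T p y‖ ^ 2 ≤ M := by
      intro p
      have h1 := hT1 p x y
      have h2 := wval_lip C Δ p.1 p.2 x y
      have h3 := hUn p.2 x y
      have h4 : ‖F p.2 x - F p.2 y‖ ^ 2 ≤ (V * dist x y) ^ 2 :=
        pow_le_pow_left₀ (norm_nonneg _) (hF3 p.2 x y) 2
      have h5 := δ_sq_lip C p.2 x y
      rw [hM]
      nlinarith
    have hrow : ∀ σ : ι ≃ Fin (Fintype.card ι), ∑ l : ι, ‖T (σ, l) x - T (σ, l) y‖ ^ 2 ≤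
        ((univ.filter (fun l => ∀ m, σ m < σ l → C.δ l x < C.δ m x)).card : ℝ) * M +
        ((univ.filter (fun l => ∀ m, σ m < σ l → C.δ l y < C.δ m y)).card : ℝ) * M := by
      intro σ
      have e : ∀ z : X, ((univ.filter (fun l => ∀ m, σ m < σ l → C.δ l z < C.δ m z)).card : ℝ) * M
          = ∑ l : ι, if (∀ m, σ m < σ l → C.δ l z < C.δ m z) then M else 0 := by
        intro z
        rw [← Finset.sum_filter, Finset.sum_const, nsmul_eq_mul]
      rw [e x, e y, ← Finset.sum_add_distrib]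
      refine Finset.sum_le_sum fun l _ => ?_
      by_cases hx : ∀ m, σ m < σ l → C.δ l x < C.δ m x
      · rw [if_pos hx]
        have h1 := hTle (σ, l)
        have h2 : (0 : ℝ) ≤ if (∀ m, σ m < σ l → C.δ l y < C.δ m y) then M else 0 := by
          split_ifs <;> linarith
        linarith
      · by_cases hy : ∀ m, σ m < σ l → C.δ l y < C.δ m y
        · rw [if_pos hy, if_neg hx, zero_add]
          exact hTle (σ, l)
        · rw [if_neg hx, if_neg hy]
          have h1 := hT2 (σ, l) x y (wval_eq_zero C Δ σ l x hx) (wval_eq_zero C Δ σ l y hy)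
          rw [h1]
          simp
    have hrx := records_le (fun l => C.δ l x) k hk
    have hry := records_le (fun l => C.δ l y) k hk
    have hsum : ∑ σ : ι ≃ Fin (Fintype.card ι), ∑ l : ι, ‖T (σ, l) x - T (σ, l) y‖ ^ 2 ≤
        2 * ((1 + Real.log k) * ((Fintype.card ι).factorial : ℝ)) * M := by
      refine (Finset.sum_le_sum fun σ _ => hrow σ).trans ?_
      rw [Finset.sum_add_distrib, ← Finset.sum_mul, ← Finset.sum_mul]
      have h1 := mul_le_mul_of_nonneg_right hrx hM0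
      have h2 := mul_le_mul_of_nonneg_right hry hM0
      refine (add_le_add h1 h2).trans (le_of_eq ?_)
      ring
    refine (mul_le_mul_of_nonneg_left hsum hA0).trans (le_of_eq ?_)
    rw [hA, hM]
    field_simp
    ring

end Pool.Agent.Lib.MP_caca3f_an.Ext
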