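import Mathlib

/-!
# JOB B1. Kirszbraun's theorem for finite sets
-/

namespace Pool.Agent.Lib.MP_caca3f_an.Ext

open Finset

universe u v w

section OnePoint

variable {ι : Type*} [Fintype ι]

/-- barycentre -/
noncomputable def bary {K : Type*} [NormedAddCommGroup K] [InnerProductSpace ℝ K]
    (b : ι → K) (t : ι → ℝ) : K := ∑ j, t j • b j

theorem sum_sq_dist {K : Type*} [NormedAddCommGroup K] [InnerProductSpace ℝ K]
    (b : ι → K) (t : ι → ℝ) (ht : ∑ i, t i = 1) (w : K) :
    ∑ i, t i * ‖w - b i‖ ^ 2 =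
      ‖w‖ ^ 2 - 2 * inner ℝ w (bary b t) + ∑ i, t i * ‖b i‖ ^ 2 := by
  have h1 : ∀ i, t i * ‖w - b i‖ ^ 2 =
      t i * ‖w‖ ^ 2 - 2 * inner ℝ w (t i • b i) + t i * ‖b i‖ ^ 2 := by
    intro i
    rw [norm_sub_sq_real, inner_smul_right]
    ring
  rw [Finset.sum_congr rfl (fun i _ => h1 i), Finset.sum_add_distrib, Finset.sum_sub_distrib,
    ← Finset.sum_mul, ht, one_mul, ← Finset.mul_sum, ← inner_sum]
  rfl

theorem sum_sum_sq_dist {K : Type*} [NormedAddCommGroup K] [InnerProductSpace ℝ K]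
    (b : ι → K) (t : ι → ℝ) (ht : ∑ i, t i = 1) :
    ∑ j, t j * ∑ i, t i * ‖b j - b i‖ ^ 2 =
      2 * (∑ i, t i * ‖b i‖ ^ 2 - ‖bary b t‖ ^ 2) := by
  have h1 : ∀ j, t j * ∑ i, t i * ‖b j - b i‖ ^ 2 =
      t j * ‖b j‖ ^ 2 - 2 * inner ℝ (t j • b j) (bary b t) +
        t j * ∑ i, t i * ‖b i‖ ^ 2 := by
    intro j
    rw [sum_sq_dist b t ht (b j), real_inner_smul_left]
    ring
  rw [Finset.sum_congr rfl (fun i _ => h1 i), Finset.sum_add_distrib, Finset.sum_sub_distrib,
    ← Finset.sum_mul, ht, one_mul, ← Finset.mul_sum, ← sum_inner]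
  have h2 : inner ℝ (∑ j, t j • b j) (bary b t) = ‖bary b t‖ ^ 2 := by
    rw [← real_inner_self_eq_norm_sq]; rfl
  rw [h2]
  ring

theorem value_nonpos {H K : Type*}
    [NormedAddCommGroup H] [InnerProductSpace ℝ H]
    [NormedAddCommGroup K] [InnerProductSpace ℝ K]
    (a : ι → H) (b : ι → K) (p : H) (c : ℝ)
    (h : ∀ i j, ‖b i - b j‖ ≤ c * ‖a i - a j‖) (t : ι → ℝ) (ht0 : ∀ i, 0 ≤ t i)
    (ht : ∑ i, t i = 1) :
    ∑ i, t i * (‖bary b t - b i‖ ^ 2 - c ^ 2 * ‖p - a i‖ ^ 2) ≤ 0 := by
  have h1 : ∑ i, t i * (‖bary b t - b i‖ ^ 2 - c ^ 2 * ‖p - a i‖ ^ 2) =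
      ∑ i, t i * ‖bary b t - b i‖ ^ 2 - c ^ 2 * ∑ i, t i * ‖p - a i‖ ^ 2 := by
    rw [Finset.mul_sum, ← Finset.sum_sub_distrib]
    refine Finset.sum_congr rfl (fun i _ => ?_)
    ring
  have h2 := sum_sq_dist b t ht (bary b t)
  have h3 := sum_sq_dist a t ht p
  have h4 := sum_sum_sq_dist b t ht
  have h5 := sum_sum_sq_dist a t ht
  have h6 : ∑ j, t j * ∑ i, t i * ‖b j - b i‖ ^ 2 ≤
      c ^ 2 * ∑ j, t j * ∑ i, t i * ‖a j - a i‖ ^ 2 := by
    rw [Finset.mul_sum]
    refine Finset.sum_le_sum (fun j _ => ?_)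
    rw [mul_left_comm]
    refine mul_le_mul_of_nonneg_left ?_ (ht0 j)
    rw [Finset.mul_sum]
    refine Finset.sum_le_sum (fun i _ => ?_)
    rw [mul_left_comm]
    refine mul_le_mul_of_nonneg_left ?_ (ht0 i)
    rw [← mul_pow]
    exact pow_le_pow_left₀ (norm_nonneg _) (h j i) 2
  have h7 : 0 ≤ ‖p - bary a t‖ ^ 2 := by positivity
  rw [norm_sub_sq_real] at h7
  rw [real_inner_self_eq_norm_sq] at h2
  have hc2 : 0 ≤ c ^ 2 := by positivity
  rw [h1, h2, h3]
  rw [h4, h5] at h6
  nlinarith [mul_nonneg hc2 h7]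

theorem one_point [Nonempty ι] {H K : Type*}
    [NormedAddCommGroup H] [InnerProductSpace ℝ H]
    [NormedAddCommGroup K] [InnerProductSpace ℝ K]
    (a : ι → H) (b : ι → K) (p : H) (c : ℝ) (hc : 0 ≤ c)
    (h : ∀ i j, ‖b i - b j‖ ≤ c * ‖a i - a j‖) :
    ∃ q : K, ∀ i, ‖q - b i‖ ≤ c * ‖p - a i‖ := by
  classical
  set f : (ι → ℝ) → (ι → ℝ) → ℝ := fun t l =>
    ∑ i, l i * (‖bary b t - b i‖ ^ 2 - c ^ 2 * ‖p - a i‖ ^ 2) with hf
  have hcB : Continuous (fun t : ι → ℝ => bary b t) := by
    unfold bary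
    fun_prop
  have hB : ∀ (u v : ι → ℝ) (α β : ℝ), bary b (α • u + β • v) = α • bary b u + β • bary b v := by
    intro u v α β
    unfold bary
    rw [Finset.smul_sum, Finset.smul_sum, ← Finset.sum_add_distrib]
    refine Finset.sum_congr rfl (fun i _ => ?_)
    simp only [Pi.add_apply, Pi.smul_apply, smul_eq_mul, add_smul, mul_smul]
  have hneS : (stdSimplex ℝ ι).Nonempty :=
    ⟨Pi.single (Classical.arbitrary ι) 1, single_mem_stdSimplex ℝ _⟩
  obtain ⟨t, ht, l, hl, hs⟩ := Sion.exists_isSaddlePointOn (X := stdSimplex ℝ ι)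
    (Y := stdSimplex ℝ ι) (f := f) hneS (convex_stdSimplex ℝ ι) (isCompact_stdSimplex ℝ ι)
    (by
      intro l _
      have h0 : Continuous (fun t => f t l) := by
        simp only [hf]
        fun_prop
      exact h0.lowerSemicontinuous.lowerSemicontinuousOn _)
    (by
      intro l hl
      apply ConvexOn.quasiconvexOn
      refine ⟨convex_stdSimplex ℝ ι, ?_⟩
      intro u _ v _ α β hα hβ hαβ
      simp only [hf, smul_eq_mul, Finset.mul_sum]
      rw [← Finset.sum_add_distrib]
      refine Finset.sum_le_sum (fun i _ => ?_)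
      have h1 : bary b (α • u + β • v) - b i =
          α • (bary b u - b i) + β • (bary b v - b i) := by
        rw [hB]
        have : b i = α • b i + β • b i := by rw [← add_smul, hαβ, one_smul]
        nth_rewrite 1 [this]
        rw [smul_sub, smul_sub]
        abel
      have h2 : ‖α • (bary b u - b i) + β • (bary b v - b i)‖ ^ 2 ≤
          α * ‖bary b u - b i‖ ^ 2 + β * ‖bary b v - b i‖ ^ 2 := by
        have h3 : ‖α • (bary b u - b i) + β • (bary b v - b i)‖ ≤
            α * ‖bary b u - b i‖ + β * ‖bary b v - b i‖ := by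
          refine (norm_add_le _ _).trans ?_
          rw [norm_smul, norm_smul, Real.norm_of_nonneg hα, Real.norm_of_nonneg hβ]
        have h4 := pow_le_pow_left₀ (norm_nonneg _) h3 2
        refine h4.trans ?_
        have hβ' : β = 1 - α := by linarith
        subst hβ'
        nlinarith [mul_nonneg (mul_nonneg hα hβ)
          (sq_nonneg (‖bary b u - b i‖ - ‖bary b v - b i‖))]
      have h5 : l i * (‖bary b (α • u + β • v) - b i‖ ^ 2 - c ^ 2 * ‖p - a i‖ ^ 2) ≤
          l i * ((α * ‖bary b u - b i‖ ^ 2 + β * ‖bary b v - b i‖ ^ 2) -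
            c ^ 2 * ‖p - a i‖ ^ 2) := by
        refine mul_le_mul_of_nonneg_left ?_ (hl.1 i)
        rw [h1]
        linarith
      refine h5.trans (le_of_eq ?_)
      have hβ' : β = 1 - α := by linarith
      subst hβ'
      ring)
    (convex_stdSimplex ℝ ι) hneS (isCompact_stdSimplex ℝ ι)
    (by
      intro t _
      have h0 : Continuous (fun l => f t l) := by
        simp only [hf]
        fun_prop
      exact h0.upperSemicontinuous.upperSemicontinuousOn _)
    (by
      intro t _
      apply ConcaveOn.quasiconcaveOn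
      refine ⟨convex_stdSimplex ℝ ι, ?_⟩
      intro u _ v _ α β hα hβ hαβ
      simp only [hf, smul_eq_mul, Finset.mul_sum]
      rw [← Finset.sum_add_distrib]
      refine Finset.sum_le_sum (fun i _ => ?_)
      simp only [Pi.add_apply, Pi.smul_apply, smul_eq_mul]
      apply le_of_eq
      ring)
  refine ⟨bary b t, fun i => ?_⟩
  have h1 := hs l hl (Pi.single i 1) (single_mem_stdSimplex ℝ i)
  have h2 : f l l ≤ 0 := value_nonpos a b p c h l hl.1 hl.2
  have h3 : f t (Pi.single i 1) = ‖bary b t - b i‖ ^ 2 - c ^ 2 * ‖p - a i‖ ^ 2 := by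
    simp only [hf]
    rw [Finset.sum_eq_single i]
    · simp
    · intro j _ hj
      rw [Pi.single_eq_of_ne hj, zero_mul]
    · intro hi
      exact absurd (Finset.mem_univ i) hi
  rw [h3] at h1
  have h4 : ‖bary b t - b i‖ ^ 2 ≤ (c * ‖p - a i‖) ^ 2 := by
    rw [mul_pow]; linarith
  exact le_of_sq_le_sq h4 (mul_nonneg hc (norm_nonneg _))

end OnePoint

/-- Finite Kirszbraun theorem: a map `g` defined on the finite set `N` which is `c`-Lipschitz with
respect to the Hilbertian pseudometric `‖φ x - φ y‖` extends to the finite set `S` with the same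
constant (no completeness needed). -/
theorem kirszbraun {X : Type u} {H : Type v} {K : Type w}
    [NormedAddCommGroup H] [InnerProductSpace ℝ H]
    [NormedAddCommGroup K] [InnerProductSpace ℝ K]
    (φ : X → H) (g : X → K) (N S : Finset X) (hNS : N ⊆ S) (c : ℝ) (hc : 0 ≤ c)
    (h : ∀ x ∈ N, ∀ y ∈ N, ‖g x - g y‖ ≤ c * ‖φ x - φ y‖) :
    ∃ g' : X → K, (∀ x ∈ N, g' x = g x) ∧
      ∀ x ∈ S, ∀ y ∈ S, ‖g' x - g' y‖ ≤ c * ‖φ x - φ y‖ := by
  classical
  have key : ∀ T : Finset X, ∃ g' : X → K, (∀ x ∈ N, g' x = g x) ∧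
      ∀ x ∈ N ∪ T, ∀ y ∈ N ∪ T, ‖g' x - g' y‖ ≤ c * ‖φ x - φ y‖ := by
    intro T
    induction T using Finset.induction_on with
    | empty =>
      refine ⟨g, fun _ _ => rfl, ?_⟩
      rw [Finset.union_empty]
      exact h
    | insert z T hz ih =>
      obtain ⟨g1, hg1, hL⟩ := ih
      by_cases hzN : z ∈ N ∪ T
      · refine ⟨g1, hg1, ?_⟩
        have : N ∪ insert z T = N ∪ T := by
          rw [Finset.union_insert, Finset.insert_eq_of_mem hzN]
        rw [this]
        exact hL
      · have hq : ∃ q : K, ∀ x ∈ N ∪ T, ‖q - g1 x‖ ≤ c * ‖φ z - φ x‖ := by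
          rcases (N ∪ T).eq_empty_or_nonempty with he | hne
          · refine ⟨0, ?_⟩
            rw [he]
            intro x hx
            simp at hx
          · have : Nonempty {x // x ∈ N ∪ T} := hne.to_subtype
            obtain ⟨q, hq⟩ := one_point (ι := {x // x ∈ N ∪ T}) (fun x => φ x.1)
              (fun x => g1 x.1) (φ z) c hc (fun i j => hL i.1 i.2 j.1 j.2)
            exact ⟨q, fun x hx => hq ⟨x, hx⟩⟩
        obtain ⟨q, hq⟩ := hq
        refine ⟨Function.update g1 z q, ?_, ?_⟩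
        · intro x hx
          rw [Function.update_of_ne, hg1 x hx]
          rintro rfl
          exact hzN (Finset.mem_union_left _ hx)
        · intro x hx y hy
          rw [Finset.union_insert, Finset.mem_insert] at hx hy
          rcases hx with rfl | hx
          · rcases hy with rfl | hy
            · simp
            · have hne : y ≠ x := by rintro rfl; exact hzN hy
              rw [Function.update_self, Function.update_of_ne hne]
              exact hq y hy
          · have hne : x ≠ z := by rintro rfl; exact hzN hx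
            rcases hy with rfl | hy
            · rw [Function.update_self, Function.update_of_ne hne, norm_sub_rev,
                norm_sub_rev (φ x)]
              exact hq x hx
            · have hne' : y ≠ z := by rintro rfl; exact hzN hy
              rw [Function.update_of_ne hne, Function.update_of_ne hne']
              exact hL x hx y hy
  obtain ⟨g', h1, h2⟩ := key S
  rw [Finset.union_eq_right.mpr hNS] at h2
  exact ⟨g', h1, h2⟩

end Pool.Agent.Lib.MP_caca3f_an.Ext
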