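import Mathlib

/-!
# JOB B2a. Nets adapted to a scale function, and the recurrence for the constants
-/

namespace Pool.Agent.Lib.MP_caca3f_an.Ext

open Finset

universe u

/-- A maximal separated subset, where the required separation at `w` is `lam * r w`. -/
theorem exists_net {X : Type u} [PseudoMetricSpace X] (B : Finset X) (r : X → ℝ)
    (hr : ∀ x, 0 ≤ r x) (lam : ℝ) (hlam : 0 ≤ lam) :
    ∃ N : Finset X, N ⊆ B ∧
      (∀ w ∈ N, ∀ w' ∈ N, w ≠ w' → lam * max (r w) (r w') ≤ dist w w') ∧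
      ∀ w ∈ B, ∃ y ∈ N, r y ≤ r w ∧ dist w y ≤ lam * r w := by
  classical
  induction B using Finset.induction_on_max_value r with
  | empty => exact ⟨∅, Finset.Subset.refl _, by simp, by simp⟩
  | insert a s ha hmax ih =>
    obtain ⟨N, hNs, hsep, hcov⟩ := ih
    by_cases h : ∃ y ∈ N, dist a y ≤ lam * r a
    · obtain ⟨y, hy, hd⟩ := h
      refine ⟨N, hNs.trans (Finset.subset_insert _ _), hsep, ?_⟩
      intro w hw
      rcases Finset.mem_insert.1 hw with rfl | hw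
      · exact ⟨y, hy, hmax y (hNs hy), hd⟩
      · exact hcov w hw
    · push Not at h
      refine ⟨insert a N, Finset.insert_subset_insert _ hNs, ?_, ?_⟩
      · intro w hw w' hw' hne
        rcases Finset.mem_insert.1 hw with h1 | h1
        · rcases Finset.mem_insert.1 hw' with h2 | h2
          · exact absurd (h1.trans h2.symm) hne
          · rw [h1, max_eq_left (hmax w' (hNs h2))]
            exact (h w' h2).le
        · rcases Finset.mem_insert.1 hw' with h2 | h2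
          · rw [h2, max_eq_right (hmax w (hNs h1)), dist_comm]
            exact (h w h1).le
          · exact hsep w h1 w' h2 hne
      · intro w hw
        rcases Finset.mem_insert.1 hw with rfl | hw
        · refine ⟨w, Finset.mem_insert_self _ _, le_rfl, ?_⟩
          rw [dist_self]
          exact mul_nonneg hlam (hr w)
        · obtain ⟨y, hy, h1, h2⟩ := hcov w hw
          exact ⟨y, Finset.mem_insert_of_mem hy, h1, h2⟩

/-- partial sums of the sequence `vv` -/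
noncomputable def Ssum (c κ : ℝ) : ℕ → ℝ
  | 0 => 0
  | N + 1 => Ssum c κ N + (c * Ssum c κ N / N + κ)

/-- the extension constants: `vv 0 = κ`, `vv N = c * (average of vv j, j < N) + κ` -/
noncomputable def vv (c κ : ℝ) (N : ℕ) : ℝ := c * Ssum c κ N / N + κ

theorem sum_vv (c κ : ℝ) (N : ℕ) : ∑ j ∈ range N, vv c κ j = Ssum c κ N := by
  induction N with
  | zero => simp [Ssum]
  | succ N ih =>
    rw [Finset.sum_range_succ, ih]
    rfl

theorem vv_zero (c κ : ℝ) : vv c κ 0 = κ := by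
  simp [vv, Ssum]

theorem vv_eq (c κ : ℝ) (N : ℕ) : vv c κ N = c * ((∑ j ∈ range N, vv c κ j) / N) + κ := by
  rw [sum_vv, vv, mul_div_assoc]

theorem Ssum_nonneg (c κ : ℝ) (hc : 1 ≤ c) (hκ : 0 ≤ κ) (N : ℕ) : 0 ≤ Ssum c κ N := by
  induction N with
  | zero => exact le_rfl
  | succ N ih =>
    have h1 : 0 ≤ c * Ssum c κ N / N := by positivity
    show 0 ≤ Ssum c κ N + (c * Ssum c κ N / N + κ)
    linarith

theorem vv_mono (c κ : ℝ) (hc : 1 ≤ c) (hκ : 0 ≤ κ) : Monotone (vv c κ) := by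
  apply monotone_nat_of_le_succ
  intro N
  have hS := Ssum_nonneg c κ hc hκ N
  rcases Nat.eq_zero_or_pos N with rfl | hN
  · rw [vv_zero]
    have h1 := Ssum_nonneg c κ hc hκ (0 + 1)
    have h2 : 0 ≤ c * Ssum c κ (0 + 1) / ((0 + 1 : ℕ) : ℝ) := by positivity
    unfold vv
    linarith
  · have hN' : (0 : ℝ) < N := by exact_mod_cast hN
    have hstep : Ssum c κ (N + 1) = Ssum c κ N + (c * Ssum c κ N / N + κ) := rfl
    unfold vv
    rw [hstep, mul_div_assoc, mul_div_assoc]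
    have h1 : Ssum c κ N / N ≤ (Ssum c κ N + (c * (Ssum c κ N / N) + κ)) / ((N + 1 : ℕ) : ℝ) := by
      rw [le_div_iff₀ (by positivity)]
      push_cast
      have h2 : Ssum c κ N / N * (N + 1) = Ssum c κ N + Ssum c κ N / N := by
        field_simp
      rw [h2]
      have h3 : 0 ≤ Ssum c κ N / N := by positivity
      nlinarith
    have h4 := mul_le_mul_of_nonneg_left h1 (by linarith : (0 : ℝ) ≤ c)
    linarith

theorem Ssum_le (c κ : ℝ) (hc : 1 ≤ c) (hκ : 0 ≤ κ) (N : ℕ) :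
    Ssum c κ N ≤ κ * ((N : ℝ) ^ c * ((harmonic N : ℚ) : ℝ)) := by
  induction N with
  | zero => simp [Ssum]
  | succ N ih =>
    have hstep : Ssum c κ (N + 1) = Ssum c κ N + (c * Ssum c κ N / N + κ) := rfl
    rcases Nat.eq_zero_or_pos N with rfl | hN
    · simp [Ssum, harmonic_succ]
    · have hN' : (0 : ℝ) < N := by exact_mod_cast hN
      have h1 : (1 : ℝ) + c * (1 / N) ≤ (1 + 1 / N) ^ c :=
        one_add_mul_self_le_rpow_one_add (by
          have : (0 : ℝ) ≤ 1 / N := by positivity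
          linarith) hc
      have h2 : ((N : ℝ) + 1) ^ c = (N : ℝ) ^ c * (1 + 1 / N) ^ c := by
        rw [← Real.mul_rpow hN'.le (by positivity)]
        congr 1
        field_simp
      have h3 : (0 : ℝ) ≤ (harmonic N : ℚ) := by
        have : (0 : ℚ) ≤ harmonic N := by
          unfold harmonic
          positivity
        exact_mod_cast this
      have h4 : ((harmonic (N + 1) : ℚ) : ℝ) = (harmonic N : ℚ) + 1 / ((N : ℝ) + 1) := by
        rw [harmonic_succ]
        push_cast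
        ring
      have h5 : (1 : ℝ) ≤ ((N : ℝ) + 1) ^ c * (1 / ((N : ℝ) + 1)) := by
        rw [mul_one_div, le_div_iff₀ (by positivity), one_mul]
        calc (N : ℝ) + 1 = ((N : ℝ) + 1) ^ (1 : ℝ) := (Real.rpow_one _).symm
          _ ≤ ((N : ℝ) + 1) ^ c := Real.rpow_le_rpow_of_exponent_le (by linarith) hc
      rw [hstep, h4]
      push_cast
      have h6 : Ssum c κ N + (c * Ssum c κ N / N + κ) = Ssum c κ N * (1 + c * (1 / N)) + κ := by
        ring
      have hS := Ssum_nonneg c κ hc hκ N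
      calc Ssum c κ N + (c * Ssum c κ N / N + κ) = Ssum c κ N * (1 + c * (1 / N)) + κ := h6
        _ ≤ κ * ((N : ℝ) ^ c * ((harmonic N : ℚ) : ℝ)) * (1 + 1 / N) ^ c + κ := by
            gcongr
        _ = κ * (((N : ℝ) + 1) ^ c * ((harmonic N : ℚ) : ℝ)) + κ * 1 := by
            rw [h2]; ring
        _ ≤ κ * (((N : ℝ) + 1) ^ c * ((harmonic N : ℚ) : ℝ)) +
              κ * (((N : ℝ) + 1) ^ c * (1 / ((N : ℝ) + 1))) := by
            gcongr
        _ = κ * (((N : ℝ) + 1) ^ c * ((harmonic N : ℚ) + 1 / ((N : ℝ) + 1))) := by ring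

/-- main estimate. Proof: `Ssum N ≤ κ N^c (1 + 1/2 + … + 1/N)` by induction, using
`1 + c/N ≤ (1+1/N)^c`, and the harmonic sum is `≤ 1 + log N`. -/
theorem vv_le (c κ : ℝ) (hc : 1 ≤ c) (hκ : 0 ≤ κ) (N : ℕ) (hN : 1 ≤ N) :
    vv c κ N ≤ κ * (c * ((N : ℝ) ^ (c - 1) * (1 + Real.log N)) + 1) := by
  have hN' : (0 : ℝ) < N := by exact_mod_cast hN
  have h1 := Ssum_le c κ hc hκ N
  have h2 : ((harmonic N : ℚ) : ℝ) ≤ 1 + Real.log N := harmonic_le_one_add_log N
  have h3 : (N : ℝ) ^ c = (N : ℝ) ^ (c - 1) * N := by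
    rw [← Real.rpow_add_one hN'.ne']
    congr 1
    ring
  have h4 : Ssum c κ N ≤ κ * ((N : ℝ) ^ (c - 1) * (1 + Real.log N)) * N := by
    calc Ssum c κ N ≤ κ * ((N : ℝ) ^ c * ((harmonic N : ℚ) : ℝ)) := h1
      _ ≤ κ * ((N : ℝ) ^ c * (1 + Real.log N)) := by gcongr
      _ = κ * ((N : ℝ) ^ (c - 1) * (1 + Real.log N)) * N := by rw [h3]; ring
  unfold vv
  have h5 : c * Ssum c κ N / N ≤ c * (κ * ((N : ℝ) ^ (c - 1) * (1 + Real.log N))) := by
    rw [div_le_iff₀ hN']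
    calc c * Ssum c κ N ≤ c * (κ * ((N : ℝ) ^ (c - 1) * (1 + Real.log N)) * N) := by gcongr
      _ = c * (κ * ((N : ℝ) ^ (c - 1) * (1 + Real.log N))) * N := by ring
  calc c * Ssum c κ N / N + κ ≤ c * (κ * ((N : ℝ) ^ (c - 1) * (1 + Real.log N))) + κ := by
        linarith
    _ = κ * (c * ((N : ℝ) ^ (c - 1) * (1 + Real.log N)) + 1) := by ring

/-- the constants used: with `Λ = 1 + log k`, `c = D + 2/Λ`, `κ = 5000 D^3 Λ^2` -/
theorem vv_final (D : ℝ) (hD : 1 ≤ D) (k : ℕ) (hk : 1 ≤ k) (N : ℕ) (hN : N ≤ k) :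
    vv (D + 2 / (1 + Real.log k)) (5000 * D ^ 3 * (1 + Real.log k) ^ 2) N ≤
      120000 * D ^ 4 * (1 + Real.log k) ^ 3 * (k : ℝ) ^ (D - 1) := by
  have hk' : (1 : ℝ) ≤ k := by exact_mod_cast hk
  have hlog : 0 ≤ Real.log k := Real.log_nonneg hk'
  set Λ : ℝ := 1 + Real.log k with hΛ
  have hΛ1 : 1 ≤ Λ := by linarith
  have hΛ0 : 0 < Λ := by linarith
  have h2Λ : 0 ≤ 2 / Λ := by positivity
  have h2Λ' : 2 / Λ ≤ 2 := by
    rw [div_le_iff₀ hΛ0]
    linarith
  have hc : 1 ≤ D + 2 / Λ := by linarith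
  have hκ : 0 ≤ 5000 * D ^ 3 * Λ ^ 2 := by positivity
  refine (vv_mono _ _ hc hκ hN).trans ((vv_le _ _ hc hκ k hk).trans ?_)
  have he : (k : ℝ) ^ (2 / Λ) ≤ 7.4 := by
    rw [Real.rpow_def_of_pos (by linarith)]
    have h1 : Real.log k * (2 / Λ) ≤ 2 := by
      rw [mul_div_assoc', div_le_iff₀ hΛ0]
      linarith
    have h2 : Real.exp 2 = Real.exp 1 * Real.exp 1 := by
      rw [← Real.exp_add]; norm_num
    have h3 := Real.exp_one_lt_d9
    have h4 := Real.exp_pos 1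
    calc Real.exp (Real.log k * (2 / Λ)) ≤ Real.exp 2 := Real.exp_le_exp.2 h1
      _ = Real.exp 1 * Real.exp 1 := h2
      _ ≤ 2.7182818286 * 2.7182818286 := by gcongr
      _ ≤ 7.4 := by norm_num
  have hp : (k : ℝ) ^ (D + 2 / Λ - 1) = (k : ℝ) ^ (D - 1) * (k : ℝ) ^ (2 / Λ) := by
    rw [← Real.rpow_add (by linarith)]
    congr 1
    ring
  have hpp : 1 ≤ (k : ℝ) ^ (D - 1) := Real.one_le_rpow hk' (by linarith)
  rw [hp, ← hΛ]
  set P : ℝ := (k : ℝ) ^ (D - 1) with hP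
  have h1 : (D + 2 / Λ) * (P * (k : ℝ) ^ (2 / Λ) * Λ) + 1 ≤ 24 * D * Λ * P := by
    have h5 : D + 2 / Λ ≤ 3 * D := by linarith
    have h6 : (D + 2 / Λ) * (P * (k : ℝ) ^ (2 / Λ) * Λ) ≤ (3 * D) * (P * 7.4 * Λ) := by
      gcongr
    have h7 : 1 ≤ D * (Λ * P) := by
      have : 1 ≤ Λ * P := one_le_mul_of_one_le_of_one_le hΛ1 hpp
      exact one_le_mul_of_one_le_of_one_le hD this
    nlinarith
  calc 5000 * D ^ 3 * Λ ^ 2 * ((D + 2 / Λ) * (P * (k : ℝ) ^ (2 / Λ) * Λ) + 1)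
      ≤ 5000 * D ^ 3 * Λ ^ 2 * (24 * D * Λ * P) := by gcongr
    _ = 120000 * D ^ 4 * Λ ^ 3 * P := by ring

end Pool.Agent.Lib.MP_caca3f_an.Ext
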