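import Pool.Agent.Lib.MP_caca3f_an.Ext.Defs

/-!
# JOB B2b. Partition of unity estimate and Chebyshev's inequality with ranks
-/

namespace Pool.Agent.Lib.MP_caca3f_an.Ext

open Finset

universe v

theorem wt_nonneg {ι : Type v} (β ε : ℝ) (s : ι → ℝ) (m : ι) : 0 ≤ wt β ε s m := le_max_right _ _

theorem wt_diff {ι : Type v} (β ε u : ℝ) (hβ : 0 ≤ β) (hu : 0 ≤ u) (s s' : ι → ℝ) (m : ι)
    (hss : s m < ε → |s m - s' m| ≤ u) :
    max (wt β ε s m - wt β ε s' m) 0 ≤ (wt β ε s m + Real.exp (-(β * ε))) * (β * u) := by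
  have hE : 0 < Real.exp (-(β * ε)) := Real.exp_pos _
  have hw := wt_nonneg β ε s m
  have hw' := wt_nonneg β ε s' m
  apply max_le _ (by positivity)
  by_cases hc : wt β ε s m = 0
  · rw [hc]
    have : 0 ≤ (0 + Real.exp (-(β * ε))) * (β * u) := by positivity
    linarith
  · have hpos : 0 < wt β ε s m := lt_of_le_of_ne hw (Ne.symm hc)
    have h1 : Real.exp (-(β * ε)) < Real.exp (-(β * s m)) := by
      by_contra hcon
      push Not at hcon
      apply hc
      unfold wt
      exact max_eq_right (by linarith)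
    have h2 : β * s m < β * ε := by
      have := Real.exp_lt_exp.mp h1
      linarith
    have h3 : s m < ε := lt_of_mul_lt_mul_left h2 hβ
    have h4 := hss h3
    have h5 : s' m ≤ s m + u := by
      have := (abs_le.mp h4).1
      linarith
    have h6 : wt β ε s m = Real.exp (-(β * s m)) - Real.exp (-(β * ε)) := by
      unfold wt
      exact max_eq_left (by linarith)
    have h7 : Real.exp (-(β * s' m)) - Real.exp (-(β * ε)) ≤ wt β ε s' m := le_max_left _ _
    have h8 : Real.exp (-(β * s m)) * (1 - β * u) ≤ Real.exp (-(β * s' m)) := by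
      calc Real.exp (-(β * s m)) * (1 - β * u)
          ≤ Real.exp (-(β * s m)) * Real.exp (-(β * u)) := by
            apply mul_le_mul_of_nonneg_left _ (Real.exp_pos _).le
            have := Real.add_one_le_exp (-(β * u))
            linarith
        _ = Real.exp (-(β * (s m + u))) := by rw [← Real.exp_add]; congr 1; ring
        _ ≤ Real.exp (-(β * s' m)) := by
            apply Real.exp_le_exp.mpr
            have := mul_le_mul_of_nonneg_left h5 hβ
            linarith
    have h9 : (wt β ε s m + Real.exp (-(β * ε))) = Real.exp (-(β * s m)) := by rw [h6]; ring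
    rw [h9, h6]
    nlinarith

/-- total variation of the normalised truncated exponential weights -/
theorem tv_bound {ι : Type v} [Fintype ι] (β ε u : ℝ) (hβ : 0 ≤ β) (hε : 0 ≤ ε) (hu : 0 ≤ u)
    (s s' : ι → ℝ) (hs : ∀ m, 0 ≤ s m) (hs' : ∀ m, 0 ≤ s' m)
    (hss : ∀ m, s m < ε ∨ s' m < ε → |s m - s' m| ≤ u)
    (h0 : ∃ m, s m = 0) (h0' : ∃ m, s' m = 0)
    (hk : (Fintype.card ι : ℝ) * Real.exp (-(β * ε)) ≤ 1 - Real.exp (-(β * ε))) :
    ∑ m, |wt β ε s m / ∑ j, wt β ε s j - wt β ε s' m / ∑ j, wt β ε s' j| ≤ 8 * β * u := by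
  set E := Real.exp (-(β * ε)) with hEdef
  have hE : 0 < E := Real.exp_pos _
  have hcard : (1 : ℝ) ≤ (Fintype.card ι : ℝ) := by
    obtain ⟨m, _⟩ := h0
    have : 0 < Fintype.card ι := Fintype.card_pos_iff.mpr ⟨m⟩
    exact_mod_cast this
  have hE1 : 0 < 1 - E := by nlinarith
  -- lower bound of the total weight
  have low : ∀ t : ι → ℝ, (∃ m, t m = 0) → 1 - E ≤ ∑ j, wt β ε t j := by
    rintro t ⟨m, hm⟩
    calc 1 - E ≤ wt β ε t m := by
          unfold wt
          rw [hm, mul_zero, neg_zero, Real.exp_zero]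
          exact le_max_left _ _
      _ ≤ ∑ j, wt β ε t j :=
          Finset.single_le_sum (f := fun j => wt β ε t j) (fun j _ => wt_nonneg β ε t j)
            (Finset.mem_univ m)
  -- one sided estimate
  have one : ∀ t t' : ι → ℝ, (∀ m, t m < ε ∨ t' m < ε → |t m - t' m| ≤ u) → (∃ m, t m = 0) →
      ∑ m, max (wt β ε t m - wt β ε t' m) 0 ≤ 2 * (∑ j, wt β ε t j) * (β * u) := by
    intro t t' htt h
    have hl := low t h
    calc ∑ m, max (wt β ε t m - wt β ε t' m) 0
        ≤ ∑ m, (wt β ε t m + E) * (β * u) :=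
          Finset.sum_le_sum (fun m _ => wt_diff β ε u hβ hu t t' m (fun hm => htt m (Or.inl hm)))
      _ = (∑ m, wt β ε t m + (Fintype.card ι : ℝ) * E) * (β * u) := by
          rw [← Finset.sum_mul, Finset.sum_add_distrib, Finset.sum_const, Finset.card_univ,
            nsmul_eq_mul]
      _ ≤ 2 * (∑ j, wt β ε t j) * (β * u) := by
          apply mul_le_mul_of_nonneg_right _ (by positivity)
          linarith
  -- the main estimate when the first total weight is the larger one
  have key : ∀ t t' : ι → ℝ, (∀ m, t m < ε ∨ t' m < ε → |t m - t' m| ≤ u) → (∃ m, t m = 0) →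
      (∃ m, t' m = 0) → ∑ j, wt β ε t' j ≤ ∑ j, wt β ε t j →
      ∑ m, |wt β ε t m / ∑ j, wt β ε t j - wt β ε t' m / ∑ j, wt β ε t' j| ≤ 8 * β * u := by
    intro t t' htt h h' hWW
    have hl := low t h
    have hl' := low t' h'
    set W := ∑ j, wt β ε t j with hW
    set W' := ∑ j, wt β ε t' j with hW'
    have hWpos : 0 < W := by linarith
    have hW'pos : 0 < W' := by linarith
    have habs : ∑ m, |wt β ε t m - wt β ε t' m| ≤ 4 * W * (β * u) := by
      have e1 : ∀ m, |wt β ε t m - wt β ε t' m| =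
          max (wt β ε t m - wt β ε t' m) 0 + max (wt β ε t' m - wt β ε t m) 0 := by
        intro m
        rcases le_total (wt β ε t m) (wt β ε t' m) with hle | hle
        · rw [abs_of_nonpos (by linarith), max_eq_right (by linarith), max_eq_left (by linarith)]
          ring
        · rw [abs_of_nonneg (by linarith), max_eq_left (by linarith), max_eq_right (by linarith)]
          ring
      have e2 := one t t' htt h
      have e3 := one t' t (fun m hm => by rw [abs_sub_comm]; exact htt m hm.symm) h'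
      rw [Finset.sum_congr rfl (fun m _ => e1 m), Finset.sum_add_distrib]
      have : 2 * W' * (β * u) ≤ 2 * W * (β * u) :=
        mul_le_mul_of_nonneg_right (by linarith) (by positivity)
      linarith
    have hpt : ∀ m, |wt β ε t m / W - wt β ε t' m / W'| ≤
        |wt β ε t m - wt β ε t' m| / W + wt β ε t' m * (1 / W' - 1 / W) := by
      intro m
      have hw' := wt_nonneg β ε t' m
      have e0 : 0 ≤ 1 / W' - 1 / W := by
        have := one_div_le_one_div_of_le hW'pos hWW
        linarith
      have e1 : wt β ε t m / W - wt β ε t' m / W' =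
          (wt β ε t m - wt β ε t' m) / W - wt β ε t' m * (1 / W' - 1 / W) := by
        field_simp
        ring
      rw [e1]
      calc |(wt β ε t m - wt β ε t' m) / W - wt β ε t' m * (1 / W' - 1 / W)|
          ≤ |(wt β ε t m - wt β ε t' m) / W| + |wt β ε t' m * (1 / W' - 1 / W)| := abs_sub _ _
        _ = _ := by
          rw [abs_div, abs_of_pos hWpos, abs_of_nonneg (mul_nonneg hw' e0)]
    have hdiff : W - W' ≤ ∑ m, |wt β ε t m - wt β ε t' m| := by
      rw [hW, hW', ← Finset.sum_sub_distrib]
      exact Finset.sum_le_sum (fun m _ => le_abs_self _)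
    calc ∑ m, |wt β ε t m / W - wt β ε t' m / W'|
        ≤ ∑ m, (|wt β ε t m - wt β ε t' m| / W + wt β ε t' m * (1 / W' - 1 / W)) :=
          Finset.sum_le_sum (fun m _ => hpt m)
      _ = (∑ m, |wt β ε t m - wt β ε t' m|) / W + W' * (1 / W' - 1 / W) := by
          rw [Finset.sum_add_distrib, ← Finset.sum_div, ← Finset.sum_mul]
      _ = ((∑ m, |wt β ε t m - wt β ε t' m|) + (W - W')) / W := by
          field_simp
      _ ≤ (4 * W * (β * u) + 4 * W * (β * u)) / W := by
          apply div_le_div_of_nonneg_right _ hWpos.le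
          linarith
      _ = 8 * β * u := by
          field_simp
          ring
  rcases le_total (∑ j, wt β ε s' j) (∑ j, wt β ε s j) with hle | hle
  · exact key s s' hss h0 h0' hle
  · have := key s' s (fun m hm => by rw [abs_sub_comm]; exact hss m hm.symm) h0' h0 hle
    calc ∑ m, |wt β ε s m / ∑ j, wt β ε s j - wt β ε s' m / ∑ j, wt β ε s' j|
        = ∑ m, |wt β ε s' m / ∑ j, wt β ε s' j - wt β ε s m / ∑ j, wt β ε s j| :=
          Finset.sum_congr rfl (fun m _ => abs_sub_comm _ _)
      _ ≤ 8 * β * u := this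

/-- with `β ε = 1 + log k` the hypothesis `hk` of `tv_bound` holds -/
theorem tv_hk (n k : ℕ) (hk : 1 ≤ k) (hn : n ≤ k) (t : ℝ) (ht : t = 1 + Real.log k) :
    (n : ℝ) * Real.exp (-t) ≤ 1 - Real.exp (-t) := by
  have hk0 : (0 : ℝ) < k := by exact_mod_cast hk
  have hk1 : (1 : ℝ) ≤ k := by exact_mod_cast hk
  have hnk : (n : ℝ) ≤ k := by exact_mod_cast hn
  have h1 : Real.exp (-t) = Real.exp (-1) / k := by
    rw [ht, neg_add, Real.exp_add, Real.exp_neg (Real.log k), Real.exp_log hk0]
    rfl
  have h2 : Real.exp (-1) < 1 / 2 := by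
    have := Real.exp_one_gt_d9
    rw [Real.exp_neg, inv_lt_comm₀ (Real.exp_pos _) (by norm_num)]
    norm_num
    linarith
  have hp : 0 < Real.exp (-1) := Real.exp_pos _
  rw [h1]
  have h3 : (n : ℝ) * (Real.exp (-1) / k) ≤ Real.exp (-1) := by
    rw [mul_div_assoc', div_le_iff₀ hk0]
    nlinarith
  have h4 : Real.exp (-1) / k ≤ Real.exp (-1) := div_le_self hp.le hk1
  linarith

theorem sum_rank {ι : Type v} (a : ι → ℝ) (v : ℕ → ℝ) (hv : Monotone v) (S : Finset ι) :
    ∑ i ∈ S, v (S.filter (fun j => a j < a i)).card ≤ ∑ j ∈ range S.card, v j := by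
  classical
  induction S using Finset.induction_on_max_value a with
  | empty => simp
  | insert x s hx hmax ih =>
    rw [Finset.sum_insert hx, Finset.card_insert_of_notMem hx, Finset.sum_range_succ]
    have h1 : v ((insert x s).filter (fun j => a j < a x)).card ≤ v s.card := by
      apply hv
      apply Finset.card_le_card
      intro j hj
      rw [Finset.mem_filter, Finset.mem_insert] at hj
      rcases hj.1 with h | h
      · rw [h] at hj; exact absurd hj.2 (lt_irrefl _)
      · exact h
    have h2 : ∑ i ∈ s, v ((insert x s).filter (fun j => a j < a i)).card =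
        ∑ i ∈ s, v (s.filter (fun j => a j < a i)).card := by
      apply Finset.sum_congr rfl
      intro i hi
      congr 2
      rw [Finset.filter_insert, if_neg (not_lt.mpr (hmax i hi))]
    rw [h2]
    linarith

theorem avg_mono (v : ℕ → ℝ) (hv : Monotone v) (N n : ℕ) (hN : 1 ≤ N) (hNn : N ≤ n) :
    (∑ j ∈ range N, v j) / N ≤ (∑ j ∈ range n, v j) / n := by
  induction n, hNn using Nat.le_induction with
  | base => exact le_rfl
  | succ n hn ih =>
    refine ih.trans ?_
    have hn0 : (0 : ℝ) < n := by exact_mod_cast (lt_of_lt_of_le Nat.zero_lt_one (hN.trans hn))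
    have h1 : ∑ j ∈ range n, v j ≤ n * v n := by
      calc ∑ j ∈ range n, v j ≤ ∑ j ∈ range n, v n :=
            Finset.sum_le_sum (fun j hj => hv (Finset.mem_range.mp hj).le)
        _ = n * v n := by rw [Finset.sum_const, Finset.card_range, nsmul_eq_mul]
    rw [Finset.sum_range_succ, div_le_div_iff₀ hn0 (by positivity)]
    push_cast
    nlinarith

/-- Chebyshev's sum inequality with ranks -/
theorem cheb {ι : Type v} (S : Finset ι) (a p : ι → ℝ) (r : ι → ℕ)
    (v : ℕ → ℝ) (hv : Monotone v) (hv0 : ∀ j, 0 ≤ v j)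
    (hp : ∀ i ∈ S, 0 ≤ p i) (hp1 : ∑ i ∈ S, p i = 1)
    (anti : ∀ i ∈ S, ∀ j ∈ S, a i ≤ a j → p j ≤ p i)
    (hr : ∀ i ∈ S, r i ≤ (S.filter (fun j => a j < a i)).card) (n : ℕ) (hn : S.card ≤ n) :
    ∑ i ∈ S, p i * v (r i) ≤ (∑ j ∈ range n, v j) / n := by
  have hS : S.Nonempty := by
    rw [Finset.nonempty_iff_ne_empty]
    rintro rfl
    simp at hp1
  have hc : 1 ≤ S.card := Finset.card_pos.mpr hS
  have hc0 : (0 : ℝ) < S.card := by exact_mod_cast hc
  have h1 : ∑ i ∈ S, p i * v (r i) ≤ ∑ i ∈ S, p i * v (S.filter (fun j => a j < a i)).card :=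
    Finset.sum_le_sum (fun i hi => mul_le_mul_of_nonneg_left (hv (hr i hi)) (hp i hi))
  have h2 : AntivaryOn p (fun i => v (S.filter (fun j => a j < a i)).card) (S : Set ι) := by
    intro i hi j hj hij
    apply anti i hi j hj
    by_contra hcon
    push Not at hcon
    apply absurd hij
    rw [not_lt]
    apply hv
    apply Finset.card_le_card
    intro l hl
    rw [Finset.mem_filter] at hl ⊢
    exact ⟨hl.1, hl.2.trans hcon⟩
  have h3 := h2.card_mul_sum_le_sum_mul_sum
  rw [hp1, one_mul] at h3
  have h4 := sum_rank a v hv S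
  have h5 := avg_mono v hv S.card n hc hn
  refine h1.trans (le_trans ?_ h5)
  rw [le_div_iff₀ hc0]
  linarith

end Pool.Agent.Lib.MP_caca3f_an.Ext
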