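import Pool.Agent.Lib.MP_caca3f_an.Ext.Defs
import Pool.Agent.Lib.MP_caca3f_an.Ext.Kirsz
import Pool.Agent.Lib.MP_caca3f_an.Ext.Net
import Pool.Agent.Lib.MP_caca3f_an.Ext.Tv

/-!
# JOB B3. The extension theorem
-/

namespace Pool.Agent.Lib.MP_caca3f_an.Ext

open Finset

universe u v w v'

section Basic

variable {X : Type u} [MetricSpace X] {ι : Type v}

/-- `x` and `y` are near, relative to the distance to the class `l` -/
def Near (C : Cover X ι) (e : ℝ) (l : ι) (x y : X) : Prop :=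
  dist x y < e * min (C.δ l x) (C.δ l y)

open Classical in
/-- the classes which are much closer to `x` or `y` than the class `l` -/
noncomputable def rel [Fintype ι] (C : Cover X ι) (ε : ℝ) (l : ι) (x y : X) : Finset ι :=
  univ.filter (fun m => C.δ m x ≤ ε * C.δ l x ∨ C.δ m y ≤ ε * C.δ l y)

theorem mem_rel [Fintype ι] (C : Cover X ι) (ε : ℝ) (l m : ι) (x y : X) :
    m ∈ rel C ε l x y ↔ (C.δ m x ≤ ε * C.δ l x ∨ C.δ m y ≤ ε * C.δ l y) := by
  simp [rel]

theorem dist_z_le (C : Cover X ι) (l : ι) (x y : X) :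
    dist (C.z l x) (C.z l y) ≤ C.δ l x + dist x y + C.δ l y := by
  calc dist (C.z l x) (C.z l y) ≤ dist (C.z l x) x + dist x y + dist y (C.z l y) :=
        dist_triangle4 _ _ _ _
    _ = _ := by rw [Cover.δ, Cover.δ, dist_comm (C.z l x) x]

theorem near_pos (C : Cover X ι) (e : ℝ) (he : 0 < e) (l : ι) (x y : X) (h : Near C e l x y) :
    0 < C.δ l x ∧ 0 < C.δ l y := by
  unfold Near at h
  have h1 : 0 < e * min (C.δ l x) (C.δ l y) := lt_of_le_of_lt dist_nonneg h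
  have h2 : 0 < min (C.δ l x) (C.δ l y) := by
    by_contra hc
    push Not at hc
    have := mul_nonpos_of_nonneg_of_nonpos he.le hc
    linarith
  exact lt_min_iff.mp h2

/-- the far estimate -/
theorem far {K : Type w} [NormedAddCommGroup K] (C : Cover X ι) (D Λ : ℝ) (hD : 1 ≤ D)
    (hΛ : 1 ≤ Λ) (l : ι) (L : ℝ) (hL : 0 ≤ L) (f F : X → K)
    (hf : ∀ x ∈ C.B l, ∀ y ∈ C.B l, ‖f x - f y‖ ≤ L * dist x y)
    (hb : ∀ x, ‖F x - f (C.z l x)‖ ≤ 24 * D ^ 2 * Λ * L * C.δ l x)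
    (x y : X) (h : ¬ Near C (1 / (12 * D * Λ)) l x y) :
    ‖F x - F y‖ ≤ 5000 * D ^ 3 * Λ ^ 2 * L * dist x y := by
  set d := dist x y with hd
  have hd0 : 0 ≤ d := dist_nonneg
  have hD0 : 0 < D := by linarith
  have hΛ0 : 0 < Λ := by linarith
  have h1 : min (C.δ l x) (C.δ l y) ≤ 12 * D * Λ * d := by
    unfold Near at h
    rw [not_lt] at h
    have hpos : 0 < 12 * D * Λ := by positivity
    rw [one_div, inv_mul_le_iff₀ hpos] at h
    exact h
  have h2 : C.δ l x + C.δ l y ≤ 2 * min (C.δ l x) (C.δ l y) + d := by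
    have hxy := C.δ_le l x y
    have hyx := C.δ_le l y x
    rw [dist_comm] at hyx
    rcases le_total (C.δ l x) (C.δ l y) with hh | hh
    · rw [min_eq_left hh]; linarith
    · rw [min_eq_right hh]; linarith
  have h3 : ‖F x - F y‖ ≤ 24 * D ^ 2 * Λ * L * C.δ l x + L * (C.δ l x + d + C.δ l y) +
      24 * D ^ 2 * Λ * L * C.δ l y := by
    have e : F x - F y = (F x - f (C.z l x)) + (f (C.z l x) - f (C.z l y)) -
        (F y - f (C.z l y)) := by abel
    rw [e]
    refine (norm_sub_le _ _).trans (add_le_add ((norm_add_le _ _).trans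
      (add_le_add (hb x) ?_)) (hb y))
    refine (hf _ (C.zmem l x) _ (C.zmem l y)).trans ?_
    exact mul_le_mul_of_nonneg_left (dist_z_le C l x y) hL
  have h4 : C.δ l x + C.δ l y ≤ (24 * D * Λ + 1) * d := by linarith
  have hDD : D ≤ D ^ 3 := by nlinarith [sq_nonneg (D - 1), mul_self_nonneg D]
  have hDD2 : D ^ 2 ≤ D ^ 3 := by nlinarith [sq_nonneg (D - 1), mul_self_nonneg D]
  have hD3 : 1 ≤ D ^ 3 := by linarith
  have hL2 : Λ ≤ Λ ^ 2 := by nlinarith
  have hL1 : 1 ≤ Λ ^ 2 := by linarith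
  have h5 : D ^ 2 * Λ ≤ D ^ 3 * Λ ^ 2 := mul_le_mul hDD2 hL2 hΛ0.le (by positivity)
  have h6 : D * Λ ≤ D ^ 3 * Λ ^ 2 := mul_le_mul hDD hL2 hΛ0.le (by positivity)
  have h7 : 1 ≤ D ^ 3 * Λ ^ 2 := one_le_mul_of_one_le_of_one_le hD3 hL1
  calc ‖F x - F y‖ ≤ L * ((24 * D ^ 2 * Λ + 1) * (C.δ l x + C.δ l y) + d) := by
        refine h3.trans (le_of_eq ?_); ring
    _ ≤ L * ((24 * D ^ 2 * Λ + 1) * ((24 * D * Λ + 1) * d) + d) := by gcongr
    _ = (576 * (D ^ 3 * Λ ^ 2) + 24 * (D ^ 2 * Λ) + 24 * (D * Λ) + 2) * (L * d) := by ring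
    _ ≤ (5000 * (D ^ 3 * Λ ^ 2)) * (L * d) := by
        apply mul_le_mul_of_nonneg_right _ (by positivity)
        linarith
    _ = _ := by ring

end Basic

section Weights

variable {ι : Type v}

theorem wt_pos (β ε : ℝ) (hβ : 0 < β) (s : ι → ℝ) (m : ι) (h : s m < ε) :
    0 < wt β ε s m := by
  unfold wt
  apply lt_max_of_lt_left
  rw [sub_pos, Real.exp_lt_exp]
  have := mul_lt_mul_of_pos_left h hβ
  linarith

theorem lt_of_wt_pos (β ε : ℝ) (hβ : 0 < β) (s : ι → ℝ) (m : ι) (h : 0 < wt β ε s m) :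
    s m < ε := by
  by_contra hcon
  push Not at hcon
  have : wt β ε s m = 0 := by
    unfold wt
    apply max_eq_right
    rw [sub_nonpos, Real.exp_le_exp]
    have := mul_le_mul_of_nonneg_left hcon hβ.le
    linarith
  linarith

theorem wt_anti (β ε : ℝ) (hβ : 0 ≤ β) (s : ι → ℝ) (i j : ι) (h : s i ≤ s j) :
    wt β ε s j ≤ wt β ε s i := by
  unfold wt
  apply max_le_max_right
  have := mul_le_mul_of_nonneg_left h hβ
  have h2 : Real.exp (-(β * s j)) ≤ Real.exp (-(β * s i)) := by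
    rw [Real.exp_le_exp]; linarith
  linarith

variable [Fintype ι]

/-- normalised weights -/
noncomputable def pp (β ε : ℝ) (s : ι → ℝ) (m : ι) : ℝ := wt β ε s m / ∑ j, wt β ε s j

theorem sum_wt_pos (β ε : ℝ) (hβ : 0 < β) (hε : 0 < ε) (s : ι → ℝ) (h0 : ∃ m, s m = 0) :
    0 < ∑ j, wt β ε s j := by
  obtain ⟨m, hm⟩ := h0
  refine Finset.sum_pos' (fun i _ => wt_nonneg β ε s i) ⟨m, Finset.mem_univ _, ?_⟩
  exact wt_pos β ε hβ s m (by rw [hm]; exact hε)

theorem pp_nonneg (β ε : ℝ) (s : ι → ℝ) (m : ι) : 0 ≤ pp β ε s m :=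
  div_nonneg (wt_nonneg β ε s m) (Finset.sum_nonneg (fun i _ => wt_nonneg β ε s i))

theorem pp_sum (β ε : ℝ) (hβ : 0 < β) (hε : 0 < ε) (s : ι → ℝ) (h0 : ∃ m, s m = 0) :
    ∑ m, pp β ε s m = 1 := by
  unfold pp
  rw [← Finset.sum_div]
  exact div_self (sum_wt_pos β ε hβ hε s h0).ne'

theorem pp_pos (β ε : ℝ) (hβ : 0 < β) (hε : 0 < ε) (s : ι → ℝ) (h0 : ∃ m, s m = 0) (m : ι)
    (h : s m < ε) : 0 < pp β ε s m :=
  div_pos (wt_pos β ε hβ s m h) (sum_wt_pos β ε hβ hε s h0)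

theorem lt_of_pp_pos (β ε : ℝ) (hβ : 0 < β) (s : ι → ℝ) (m : ι) (h : 0 < pp β ε s m) :
    s m < ε := by
  apply lt_of_wt_pos β ε hβ s m
  by_contra hc
  have h0 : wt β ε s m = 0 := le_antisymm (not_lt.mp hc) (wt_nonneg β ε s m)
  unfold pp at h
  rw [h0, zero_div] at h
  exact lt_irrefl _ h

theorem pp_anti (β ε : ℝ) (hβ : 0 ≤ β) (s : ι → ℝ) (i j : ι) (h : s i ≤ s j) :
    pp β ε s j ≤ pp β ε s i :=
  div_le_div_of_nonneg_right (wt_anti β ε hβ s i j h)
    (Finset.sum_nonneg (fun i _ => wt_nonneg β ε s i))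

theorem norm_sum_smul_le {K : Type w} [NormedAddCommGroup K] [NormedSpace ℝ K] (p : ι → ℝ)
    (g : ι → K) : ‖∑ m, p m • g m‖ ≤ ∑ m, |p m| * ‖g m‖ := by
  refine (norm_sum_le _ _).trans (le_of_eq ?_)
  exact Finset.sum_congr rfl (fun m _ => by rw [norm_smul, Real.norm_eq_abs])

end Weights

section Local

variable {X : Type u} [MetricSpace X] {ι : Type v}

theorem local_map [Fintype X] {H : Type v'} [NormedAddCommGroup H] [InnerProductSpace ℝ H]
    {K : Type w} [NormedAddCommGroup K] [InnerProductSpace ℝ K]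
    (C : Cover X ι) (D Λ : ℝ) (hD : 1 ≤ D) (hΛ : 1 ≤ Λ) (φ : X → H) (l m : ι)
    (hφ1 : ∀ x ∈ C.B m, ∀ y ∈ C.B m, dist x y ≤ ‖φ x - φ y‖)
    (hφ2 : ∀ x ∈ C.B m, ∀ y ∈ C.B m, ‖φ x - φ y‖ ≤ D * dist x y)
    (L : ℝ) (hL : 0 ≤ L) (f : X → K)
    (hf : ∀ x ∈ C.B l, ∀ y ∈ C.B l, ‖f x - f y‖ ≤ L * dist x y) :
    ∃ g : X → K, (∀ x ∈ C.B m, ∀ y ∈ C.B m, ‖g x - g y‖ ≤ (D + 2 / Λ) * L * dist x y) ∧
      ∀ w ∈ C.B m, ‖g w - f (C.z l w)‖ ≤ 6 * D ^ 2 * Λ * L * C.δ l w := by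
  classical
  have hD0 : 0 < D := by linarith
  have hΛ0 : 0 < Λ := by linarith
  have hlam : 0 < D * Λ := by positivity
  obtain ⟨N, hNB, hsep, hnet⟩ := exists_net (univ.filter (fun x => x ∈ C.B m)) (C.δ l)
    (C.δ_nonneg l) (D * Λ) hlam.le
  have hN : ∀ w ∈ N, w ∈ C.B m := fun w hw => by simpa using hNB hw
  set α := 1 + 2 / (D * Λ) with hα
  have hα0 : 0 ≤ α := by positivity
  have hαD : α * D = D + 2 / Λ := by rw [hα]; field_simp
  obtain ⟨g, hgN, hgS⟩ := kirszbraun φ (fun w => f (C.z l w)) N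
    (univ.filter (fun x => x ∈ C.B m)) hNB (α * L) (by positivity) (by
    intro w hw w' hw'
    by_cases hww : w = w'
    · subst hww; simp
    have h1 := hsep w hw w' hw' hww
    have h2 : C.δ l w ≤ dist w w' / (D * Λ) := by
      rw [le_div_iff₀ hlam, mul_comm]
      exact (mul_le_mul_of_nonneg_left (le_max_left _ _) hlam.le).trans h1
    have h3 : C.δ l w' ≤ dist w w' / (D * Λ) := by
      rw [le_div_iff₀ hlam, mul_comm]
      exact (mul_le_mul_of_nonneg_left (le_max_right _ _) hlam.le).trans h1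
    calc ‖f (C.z l w) - f (C.z l w')‖ ≤ L * dist (C.z l w) (C.z l w') :=
          hf _ (C.zmem l w) _ (C.zmem l w')
      _ ≤ L * (α * dist w w') := by
          apply mul_le_mul_of_nonneg_left _ hL
          refine (dist_z_le C l w w').trans ?_
          have : α * dist w w' = dist w w' / (D * Λ) + dist w w' + dist w w' / (D * Λ) := by
            rw [hα]; ring
          linarith
      _ ≤ L * (α * ‖φ w - φ w'‖) := by
          have := hφ1 _ (hN w hw) _ (hN w' hw')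
          gcongr
      _ = _ := by ring)
  refine ⟨g, ?_, ?_⟩
  · intro x hx y hy
    have hxS : x ∈ univ.filter (fun x => x ∈ C.B m) := by simpa using hx
    have hyS : y ∈ univ.filter (fun x => x ∈ C.B m) := by simpa using hy
    calc ‖g x - g y‖ ≤ α * L * ‖φ x - φ y‖ := hgS x hxS y hyS
      _ ≤ α * L * (D * dist x y) := by
          have := hφ2 x hx y hy
          gcongr
      _ = (α * D) * L * dist x y := by ring
      _ = _ := by rw [hαD]
  · intro w hw
    have hwS : w ∈ univ.filter (fun x => x ∈ C.B m) := by simpa using hw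
    obtain ⟨y, hyN, hry, hdy⟩ := hnet w hwS
    have hy : y ∈ C.B m := hN y hyN
    have hgy : g y = f (C.z l y) := hgN y hyN
    have hδ0 : 0 ≤ C.δ l w := C.δ_nonneg l w
    have e : g w - f (C.z l w) = (g w - g y) + (f (C.z l y) - f (C.z l w)) := by
      rw [hgy]; abel
    have h1 : ‖g w - g y‖ ≤ (D + 2 / Λ) * L * (D * Λ * C.δ l w) := by
      calc ‖g w - g y‖ ≤ α * L * ‖φ w - φ y‖ := hgS w hwS y (hNB hyN)
        _ ≤ α * L * (D * dist w y) := by
            have := hφ2 w hw y hy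
            gcongr
        _ = (α * D) * L * dist w y := by ring
        _ = (D + 2 / Λ) * L * dist w y := by rw [hαD]
        _ ≤ _ := by gcongr
    have h2 : ‖f (C.z l y) - f (C.z l w)‖ ≤ L * ((2 + D * Λ) * C.δ l w) := by
      refine (hf _ (C.zmem l y) _ (C.zmem l w)).trans ?_
      apply mul_le_mul_of_nonneg_left _ hL
      refine (dist_z_le C l y w).trans ?_
      rw [dist_comm y w]
      linarith
    rw [e]
    refine (norm_add_le _ _).trans ((add_le_add h1 h2).trans ?_)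
    have h3 : (D + 2 / Λ) * (D * Λ) = D ^ 2 * Λ + 2 * D := by field_simp
    have h4 : (D + 2 / Λ) * L * (D * Λ * C.δ l w) + L * ((2 + D * Λ) * C.δ l w) =
        (D ^ 2 * Λ + 2 * D + 2 + D * Λ) * (L * C.δ l w) := by
      rw [← h3]; ring
    rw [h4]
    have h5 : 6 * D ^ 2 * Λ * L * C.δ l w = (6 * (D ^ 2 * Λ)) * (L * C.δ l w) := by ring
    rw [h5]
    apply mul_le_mul_of_nonneg_right _ (by positivity)
    have a1 : D ≤ D ^ 2 := by nlinarith
    have a2 : D * Λ ≤ D ^ 2 * Λ := mul_le_mul_of_nonneg_right a1 hΛ0.le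
    have a3 : D ≤ D * Λ := le_mul_of_one_le_right hD0.le hΛ
    linarith

/-- the anchoring estimate -/
theorem anchor {K : Type w} [NormedAddCommGroup K]
    (C : Cover X ι) (D Λ c : ℝ) (hD : 1 ≤ D) (hΛ : 1 ≤ Λ) (hc : c ≤ 3 * D)
    (l m : ι) (L : ℝ) (hL : 0 ≤ L) (f g G : X → K)
    (hf : ∀ x ∈ C.B l, ∀ y ∈ C.B l, ‖f x - f y‖ ≤ L * dist x y)
    (hg : ∀ w ∈ C.B m, ‖g w - f (C.z l w)‖ ≤ 6 * D ^ 2 * Λ * L * C.δ l w)
    (hG : ∀ x, ‖G x - g (C.z m x)‖ ≤ 24 * D ^ 2 * Λ * (c * L) * C.δ m x)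
    (θ : ℝ) (x : X) (hx : C.δ m x ≤ θ * C.δ l x) :
    ‖G x - f (C.z l x)‖ ≤
      (72 * D ^ 3 * Λ * θ + 6 * D ^ 2 * Λ * (1 + θ) + (2 + 2 * θ)) * (L * C.δ l x) := by
  have hD0 : 0 < D := by linarith
  have hΛ0 : 0 < Λ := by linarith
  have hδm : 0 ≤ C.δ m x := C.δ_nonneg m x
  have hδl : 0 ≤ C.δ l x := C.δ_nonneg l x
  set w := C.z m x with hw
  have hwm : w ∈ C.B m := C.zmem m x
  have hdw : dist x w = C.δ m x := rfl
  have hδw : C.δ l w ≤ (1 + θ) * C.δ l x := by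
    have := C.δ_le l w x
    rw [dist_comm, hdw] at this
    linarith
  have e : G x - f (C.z l x) = (G x - g w) + (g w - f (C.z l w)) +
      (f (C.z l w) - f (C.z l x)) := by abel
  have h1 : ‖G x - g w‖ ≤ 24 * D ^ 2 * Λ * (3 * D * L) * (θ * C.δ l x) := by
    refine (hG x).trans ?_
    gcongr
  have h2 : ‖g w - f (C.z l w)‖ ≤ 6 * D ^ 2 * Λ * L * ((1 + θ) * C.δ l x) := by
    refine (hg w hwm).trans ?_
    gcongr
  have h3 : ‖f (C.z l w) - f (C.z l x)‖ ≤ L * ((2 + 2 * θ) * C.δ l x) := by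
    refine (hf _ (C.zmem l w) _ (C.zmem l x)).trans ?_
    apply mul_le_mul_of_nonneg_left _ hL
    refine (dist_z_le C l w x).trans ?_
    rw [dist_comm w x, hdw]
    linarith
  rw [e]
  refine (norm_add_le _ _).trans ((add_le_add ((norm_add_le _ _).trans (add_le_add h1 h2))
    h3).trans (le_of_eq ?_))
  ring

theorem anchor1 {K : Type w} [NormedAddCommGroup K]
    (C : Cover X ι) (D Λ c : ℝ) (hD : 1 ≤ D) (hΛ : 1 ≤ Λ) (hc : c ≤ 3 * D)
    (l m : ι) (L : ℝ) (hL : 0 ≤ L) (f g G : X → K)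
    (hf : ∀ x ∈ C.B l, ∀ y ∈ C.B l, ‖f x - f y‖ ≤ L * dist x y)
    (hg : ∀ w ∈ C.B m, ‖g w - f (C.z l w)‖ ≤ 6 * D ^ 2 * Λ * L * C.δ l w)
    (hG : ∀ x, ‖G x - g (C.z m x)‖ ≤ 24 * D ^ 2 * Λ * (c * L) * C.δ m x)
    (x : X) (hx : C.δ m x ≤ 1 / (6 * D) * C.δ l x) :
    ‖G x - f (C.z l x)‖ ≤ 24 * D ^ 2 * Λ * L * C.δ l x := by
  have hD0 : 0 < D := by linarith
  have hΛ0 : 0 < Λ := by linarith
  have hδl : 0 ≤ C.δ l x := C.δ_nonneg l x
  refine (anchor C D Λ c hD hΛ hc l m L hL f g G hf hg hG (1 / (6 * D))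
    x hx).trans ?_
  have h1 : 72 * D ^ 3 * Λ * (1 / (6 * D)) = 12 * (D ^ 2 * Λ) := by field_simp; norm_num
  have h2 : 1 / (6 * D) ≤ 1 / 6 := by
    apply one_div_le_one_div_of_le (by norm_num)
    linarith
  have h3 : 1 ≤ D ^ 2 * Λ := one_le_mul_of_one_le_of_one_le (by nlinarith) hΛ
  have h4 : 24 * D ^ 2 * Λ * L * C.δ l x = (24 * (D ^ 2 * Λ)) * (L * C.δ l x) := by ring
  rw [h4]
  apply mul_le_mul_of_nonneg_right _ (by positivity)
  rw [h1]
  have h5 : 6 * D ^ 2 * Λ * (1 + 1 / (6 * D)) ≤ 7 * (D ^ 2 * Λ) := by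
    have : 6 * D ^ 2 * Λ * (1 + 1 / (6 * D)) ≤ 6 * D ^ 2 * Λ * (1 + 1 / 6) := by gcongr
    refine this.trans (le_of_eq ?_); ring
  linarith

theorem anchor2 {K : Type w} [NormedAddCommGroup K]
    (C : Cover X ι) (D Λ c : ℝ) (hD : 1 ≤ D) (hΛ : 1 ≤ Λ) (hc : c ≤ 3 * D)
    (l m : ι) (L : ℝ) (hL : 0 ≤ L) (f g G : X → K)
    (hf : ∀ x ∈ C.B l, ∀ y ∈ C.B l, ‖f x - f y‖ ≤ L * dist x y)
    (hg : ∀ w ∈ C.B m, ‖g w - f (C.z l w)‖ ≤ 6 * D ^ 2 * Λ * L * C.δ l w)
    (hG : ∀ x, ‖G x - g (C.z m x)‖ ≤ 24 * D ^ 2 * Λ * (c * L) * C.δ m x)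
    (x : X) (hx : C.δ m x ≤ 2 * (1 / (6 * D)) * C.δ l x) :
    ‖G x - f (C.z l x)‖ ≤ 35 * D ^ 2 * Λ * L * C.δ l x := by
  have hD0 : 0 < D := by linarith
  have hΛ0 : 0 < Λ := by linarith
  have hδl : 0 ≤ C.δ l x := C.δ_nonneg l x
  refine (anchor C D Λ c hD hΛ hc l m L hL f g G hf hg hG (2 * (1 / (6 * D)))
    x hx).trans ?_
  have h1 : 72 * D ^ 3 * Λ * (2 * (1 / (6 * D))) = 24 * (D ^ 2 * Λ) := by field_simp; norm_num
  have h2 : 1 / (6 * D) ≤ 1 / 6 := by
    apply one_div_le_one_div_of_le (by norm_num)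
    linarith
  have h3 : 1 ≤ D ^ 2 * Λ := one_le_mul_of_one_le_of_one_le (by nlinarith) hΛ
  have h4 : 35 * D ^ 2 * Λ * L * C.δ l x = (35 * (D ^ 2 * Λ)) * (L * C.δ l x) := by ring
  rw [h4]
  apply mul_le_mul_of_nonneg_right _ (by positivity)
  rw [h1]
  have h5 : 6 * D ^ 2 * Λ * (1 + 2 * (1 / (6 * D))) ≤ 8 * (D ^ 2 * Λ) := by
    have : 6 * D ^ 2 * Λ * (1 + 2 * (1 / (6 * D))) ≤ 6 * D ^ 2 * Λ * (1 + 2 * (1 / 6)) := by
      gcongr
    refine this.trans (le_of_eq ?_); ring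
  linarith

end Local

section Step

variable {X : Type u} [MetricSpace X] {ι : Type v} [Fintype ι]

/-- the properties of the extension after `j` steps -/
def Good (C : Cover X ι) (D Λ : ℝ) (v : ℕ → ℝ) {K : Type w} [NormedAddCommGroup K]
    (l : ι) (L : ℝ) (f F : X → K) (j : ℕ) : Prop :=
  (∀ x ∈ C.B l, F x = f x) ∧
  (∀ x, ‖F x - f (C.z l x)‖ ≤ 24 * D ^ 2 * Λ * L * C.δ l x) ∧
  ∀ x y, Near C (1 / (12 * D * Λ)) l x y → (rel C (1 / (6 * D)) l x y).card ≤ j →
    ‖F x - F y‖ ≤ v (rel C (1 / (6 * D)) l x y).card * L * dist x y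

/-- extension property up to rank `j` -/
def PP (C : Cover X ι) (D Λ : ℝ) (v : ℕ → ℝ) (K : Type w) [NormedAddCommGroup K] (j : ℕ) :
    Prop :=
  ∀ (l : ι) (L : ℝ) (f : X → K), 0 ≤ L →
    (∀ x ∈ C.B l, ∀ y ∈ C.B l, ‖f x - f y‖ ≤ L * dist x y) →
    ∃ F : X → K, Good C D Λ v l L f F j

theorem PP_zero (C : Cover X ι) (D Λ : ℝ) (hD : 1 ≤ D) (hΛ : 1 ≤ Λ) (v : ℕ → ℝ) (K : Type w)
    [NormedAddCommGroup K] : PP C D Λ v K 0 := by
  intro l L f hL _
  have hD0 : 0 < D := by linarith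
  have hΛ0 : 0 < Λ := by linarith
  refine ⟨fun x => f (C.z l x), fun x hx => congrArg f (C.z_eq hx), fun x => ?_,
    fun x y _ hc => ?_⟩
  · have := C.δ_nonneg l x
    simp only [sub_self, norm_zero]
    positivity
  · exfalso
    obtain ⟨m, hm⟩ := C.cov x
    have h1 : m ∈ rel C (1 / (6 * D)) l x y := by
      rw [mem_rel]
      left
      rw [C.δ_eq_zero hm]
      have := C.δ_nonneg l x
      positivity
    rw [Nat.le_zero, Finset.card_eq_zero] at hc
    rw [hc] at h1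
    simp at h1

open Classical in
/-- the rank of the class `m` for the pair `x, y` -/
noncomputable def rk (C : Cover X ι) (D Λ : ℝ) (m : ι) (x y : X) : ℕ :=
  if Near C (1 / (12 * D * Λ)) m x y then (rel C (1 / (6 * D)) m x y).card else 0

theorem pair_bound (C : Cover X ι) (D Λ c : ℝ) (hD : 1 ≤ D) (hΛ : 1 ≤ Λ) (hc0 : 0 ≤ c)
    {K : Type w} [NormedAddCommGroup K] (m : ι) (L : ℝ) (hL : 0 ≤ L) (g G : X → K) (j : ℕ)
    (hg : ∀ x ∈ C.B m, ∀ y ∈ C.B m, ‖g x - g y‖ ≤ c * L * dist x y)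
    (hG : Good C D Λ (vv c (5000 * D ^ 3 * Λ ^ 2)) m (c * L) g G j) (x y : X)
    (hr : Near C (1 / (12 * D * Λ)) m x y → (rel C (1 / (6 * D)) m x y).card ≤ j) :
    ‖G x - G y‖ ≤ vv c (5000 * D ^ 3 * Λ ^ 2) (rk C D Λ m x y) * (c * L) * dist x y := by
  unfold rk
  by_cases h : Near C (1 / (12 * D * Λ)) m x y
  · rw [if_pos h]
    exact hG.2.2 x y h (hr h)
  · rw [if_neg h, vv_zero]
    exact far C D Λ hD hΛ m (c * L) (mul_nonneg hc0 hL) g G hg hG.2.1 x y h

theorem rel_sub (C : Cover X ι) (D Λ : ℝ) (hD : 1 ≤ D) (hΛ : 1 ≤ Λ) (m : ι) (x y : X)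
    (hn : Near C (1 / (12 * D * Λ)) m x y) (m' : ι) (hm' : m' ∈ rel C (1 / (6 * D)) m x y) :
    C.δ m' x < C.δ m x := by
  have hD0 : 0 < D := by linarith
  have hΛ0 : 0 < Λ := by linarith
  obtain ⟨hx, hy⟩ := near_pos C _ (by positivity) m x y hn
  have h2 : 1 / (6 * D) ≤ 1 / 6 := by
    apply one_div_le_one_div_of_le (by norm_num)
    linarith
  have h3 : 1 / (12 * D * Λ) ≤ 1 / 12 := by
    apply one_div_le_one_div_of_le (by norm_num)
    have : 1 ≤ D * Λ := one_le_mul_of_one_le_of_one_le hD hΛ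
    linarith
  have hd : dist x y < 1 / 12 * C.δ m x := by
    unfold Near at hn
    refine hn.trans_le ?_
    have h4 : min (C.δ m x) (C.δ m y) ≤ C.δ m x := min_le_left _ _
    have h5 : 0 ≤ min (C.δ m x) (C.δ m y) := le_min hx.le hy.le
    calc 1 / (12 * D * Λ) * min (C.δ m x) (C.δ m y) ≤ 1 / 12 * min (C.δ m x) (C.δ m y) :=
          mul_le_mul_of_nonneg_right h3 h5
      _ ≤ 1 / 12 * C.δ m x := by linarith
  rw [mem_rel] at hm'
  rcases hm' with h | h
  · have : 1 / (6 * D) * C.δ m x ≤ 1 / 6 * C.δ m x := mul_le_mul_of_nonneg_right h2 hx.le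
    linarith
  · have h6 : 1 / (6 * D) * C.δ m y ≤ 1 / 6 * C.δ m y := mul_le_mul_of_nonneg_right h2 hy.le
    have h7 := C.δ_le m' x y
    have h8 := C.δ_le m y x
    rw [dist_comm y x] at h8
    linarith

theorem vv_nonneg (c κ : ℝ) (hc : 1 ≤ c) (hκ : 0 ≤ κ) (n : ℕ) : 0 ≤ vv c κ n := by
  have := vv_mono c κ hc hκ (Nat.zero_le n)
  rw [vv_zero] at this
  linarith

/-- the estimate for the first sum -/
theorem first_sum (C : Cover X ι) (D Λ c κ : ℝ) (hD : 1 ≤ D) (hΛ : 1 ≤ Λ) (hc : 1 ≤ c)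
    (hκ : 0 ≤ κ) (l : ι) (x y : X) (hx : 0 < C.δ l x) :
    (∀ m, 0 < pp (6 * D * Λ) (1 / (6 * D)) (fun m => C.δ m x / C.δ l x) m →
      Near C (1 / (12 * D * Λ)) m x y →
        (rel C (1 / (6 * D)) m x y).card < (rel C (1 / (6 * D)) l x y).card) ∧
    ∑ m, pp (6 * D * Λ) (1 / (6 * D)) (fun m => C.δ m x / C.δ l x) m *
        vv c κ (rk C D Λ m x y) ≤
      (∑ j ∈ range (rel C (1 / (6 * D)) l x y).card, vv c κ j) /
        ((rel C (1 / (6 * D)) l x y).card : ℕ) := by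
  classical
  have hD0 : 0 < D := by linarith
  have hΛ0 : 0 < Λ := by linarith
  have hβ : 0 < 6 * D * Λ := by positivity
  have hε : 0 < 1 / (6 * D) := by positivity
  set p : ι → ℝ := pp (6 * D * Λ) (1 / (6 * D)) (fun m => C.δ m x / C.δ l x) with hp
  have hs0 : ∃ m, (fun m => C.δ m x / C.δ l x) m = 0 := by
    obtain ⟨m, hm⟩ := C.cov x
    exact ⟨m, by simp [C.δ_eq_zero hm]⟩
  set S : Finset ι := univ.filter (fun m => 0 < p m) with hS
  have hmemS : ∀ m, m ∈ S ↔ C.δ m x < 1 / (6 * D) * C.δ l x := by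
    intro m
    rw [hS, Finset.mem_filter]
    constructor
    · rintro ⟨_, h⟩
      have := lt_of_pp_pos _ _ hβ _ m h
      rwa [div_lt_iff₀ hx] at this
    · intro h
      refine ⟨Finset.mem_univ _, pp_pos _ _ hβ hε _ hs0 m ?_⟩
      rwa [div_lt_iff₀ hx]
  have hSrel : S ⊆ rel C (1 / (6 * D)) l x y := by
    intro m hm
    rw [mem_rel]
    left
    exact ((hmemS m).mp hm).le
  have hsub : ∀ m ∈ S, Near C (1 / (12 * D * Λ)) m x y →
      rel C (1 / (6 * D)) m x y ⊆ S.filter (fun m' => C.δ m' x < C.δ m x) := by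
    intro m hm hn m' hm'
    have h1 := rel_sub C D Λ hD hΛ m x y hn m' hm'
    rw [Finset.mem_filter]
    refine ⟨?_, h1⟩
    rw [hmemS] at hm ⊢
    linarith
  have hrk : ∀ m ∈ S, rk C D Λ m x y ≤ (S.filter (fun m' => C.δ m' x < C.δ m x)).card := by
    intro m hm
    unfold rk
    split_ifs with hn
    · exact Finset.card_le_card (hsub m hm hn)
    · exact Nat.zero_le _
  refine ⟨?_, ?_⟩
  · intro m hm hn
    have hmS : m ∈ S := by rw [hS, Finset.mem_filter]; exact ⟨Finset.mem_univ _, hm⟩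
    calc (rel C (1 / (6 * D)) m x y).card ≤ (S.filter (fun m' => C.δ m' x < C.δ m x)).card :=
          Finset.card_le_card (hsub m hmS hn)
      _ < S.card := by
          apply Finset.card_lt_card
          rw [Finset.ssubset_iff_of_subset (Finset.filter_subset _ _)]
          exact ⟨m, hmS, by simp⟩
      _ ≤ _ := Finset.card_le_card hSrel
  · have hsum : ∀ q : ι → ℝ, ∑ m, p m * q m = ∑ m ∈ S, p m * q m := by
      intro q
      symm
      apply Finset.sum_subset (Finset.subset_univ _)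
      intro m _ hm
      have h1 : ¬ 0 < p m := by
        intro h
        exact hm (by rw [hS, Finset.mem_filter]; exact ⟨Finset.mem_univ _, h⟩)
      have h2 : p m = 0 := le_antisymm (not_lt.mp h1) (pp_nonneg _ _ _ _)
      rw [h2, zero_mul]
    have hp1 : ∑ m ∈ S, p m = 1 := by
      have h1 := hsum (fun _ => 1)
      simp only [mul_one] at h1
      rw [← h1]
      exact pp_sum _ _ hβ hε _ hs0
    rw [hsum]
    refine cheb S (fun m => C.δ m x) p (fun m => rk C D Λ m x y) (vv c κ) (vv_mono c κ hc hκ)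
      (vv_nonneg c κ hc hκ) (fun i _ => pp_nonneg _ _ _ _) hp1 ?_ hrk _
      (Finset.card_le_card hSrel)
    intro i _ j _ hij
    apply pp_anti _ _ hβ.le
    exact div_le_div_of_nonneg_right hij hx.le

/-- the total variation estimate -/
theorem tv_near (C : Cover X ι) (D Λ : ℝ) (hD : 1 ≤ D) (hΛ : 1 ≤ Λ)
    (hcard : (Fintype.card ι : ℝ) * Real.exp (-Λ) ≤ 1 - Real.exp (-Λ))
    (l : ι) (x y : X) (hx : 0 < C.δ l x) (hy : 0 < C.δ l y) :
    ∑ m, |pp (6 * D * Λ) (1 / (6 * D)) (fun m => C.δ m x / C.δ l x) m -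
      pp (6 * D * Λ) (1 / (6 * D)) (fun m => C.δ m y / C.δ l y) m| ≤
      8 * (6 * D * Λ) * (2 * dist x y / min (C.δ l x) (C.δ l y)) := by
  have hD0 : 0 < D := by linarith
  have hΛ0 : 0 < Λ := by linarith
  have hβε : 6 * D * Λ * (1 / (6 * D)) = Λ := by field_simp
  have hR : 0 < min (C.δ l x) (C.δ l y) := lt_min hx hy
  have hε1 : 1 / (6 * D) ≤ 1 := by
    rw [div_le_one (by positivity)]; linarith
  refine tv_bound (6 * D * Λ) (1 / (6 * D)) (2 * dist x y / min (C.δ l x) (C.δ l y))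
    (by positivity) (by positivity) (by positivity) (fun m => C.δ m x / C.δ l x)
    (fun m => C.δ m y / C.δ l y) (fun m => div_nonneg (C.δ_nonneg m x) hx.le)
    (fun m => div_nonneg (C.δ_nonneg m y) hy.le) ?_ ?_ ?_ ?_
  · intro m hm
    have key : ∀ a b : X, 0 < C.δ l a → 0 < C.δ l b → C.δ m a / C.δ l a ≤ 1 →
        |C.δ m a / C.δ l a - C.δ m b / C.δ l b| ≤ 2 * dist a b / C.δ l b := by
      intro a b ha hb hab
      have e : C.δ m a / C.δ l a - C.δ m b / C.δ l b =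
          ((C.δ m a / C.δ l a) * (C.δ l b - C.δ l a) + (C.δ m a - C.δ m b)) / C.δ l b := by
        field_simp
        ring
      rw [e, abs_div, abs_of_pos hb]
      apply div_le_div_of_nonneg_right _ hb.le
      have h1 : |C.δ l b - C.δ l a| ≤ dist a b := by
        rw [abs_sub_le_iff]
        have h1 := C.δ_le l b a
        have h2 := C.δ_le l a b
        rw [dist_comm b a] at h1
        constructor <;> linarith
      have h2 : |C.δ m a - C.δ m b| ≤ dist a b := by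
        rw [abs_sub_le_iff]
        have h1 := C.δ_le m b a
        have h2 := C.δ_le m a b
        rw [dist_comm b a] at h1
        constructor <;> linarith
      have h3 : 0 ≤ C.δ m a / C.δ l a := div_nonneg (C.δ_nonneg m a) ha.le
      calc |(C.δ m a / C.δ l a) * (C.δ l b - C.δ l a) + (C.δ m a - C.δ m b)|
          ≤ |(C.δ m a / C.δ l a) * (C.δ l b - C.δ l a)| + |C.δ m a - C.δ m b| := abs_add_le _ _
        _ = (C.δ m a / C.δ l a) * |C.δ l b - C.δ l a| + |C.δ m a - C.δ m b| := by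
            rw [abs_mul, abs_of_nonneg h3]
        _ ≤ 1 * dist a b + dist a b := by
            apply add_le_add _ h2
            exact mul_le_mul hab h1 (abs_nonneg _) (by norm_num)
        _ = 2 * dist a b := by ring
    rcases hm with h | h
    · refine (key x y hx hy (h.le.trans hε1)).trans ?_
      apply div_le_div_of_nonneg_left _ hR (min_le_right _ _)
      positivity
    · have h4 := key y x hy hx (h.le.trans hε1)
      rw [abs_sub_comm] at h4
      refine h4.trans ?_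
      rw [dist_comm y x]
      apply div_le_div_of_nonneg_left _ hR (min_le_left _ _)
      positivity
  · obtain ⟨m, hm⟩ := C.cov x
    exact ⟨m, by simp [C.δ_eq_zero hm]⟩
  · obtain ⟨m, hm⟩ := C.cov y
    exact ⟨m, by simp [C.δ_eq_zero hm]⟩
  · rw [hβε]
    exact hcard

theorem step [Fintype X] (C : Cover X ι) (D Λ : ℝ) (hD : 1 ≤ D) (hΛ : 1 ≤ Λ)
    (hcard : (Fintype.card ι : ℝ) * Real.exp (-Λ) ≤ 1 - Real.exp (-Λ))
    (H : ι → Type v') [∀ l, NormedAddCommGroup (H l)] [∀ l, InnerProductSpace ℝ (H l)]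
    (φ : ∀ l, X → H l)
    (hφ1 : ∀ l, ∀ x ∈ C.B l, ∀ y ∈ C.B l, dist x y ≤ ‖φ l x - φ l y‖)
    (hφ2 : ∀ l, ∀ x ∈ C.B l, ∀ y ∈ C.B l, ‖φ l x - φ l y‖ ≤ D * dist x y)
    (K : Type w) [NormedAddCommGroup K] [InnerProductSpace ℝ K] (j : ℕ)
    (hj : PP C D Λ (vv (D + 2 / Λ) (5000 * D ^ 3 * Λ ^ 2)) K j) :
    PP C D Λ (vv (D + 2 / Λ) (5000 * D ^ 3 * Λ ^ 2)) K (j + 1) := by
  classical
  intro l L f hL hf
  have hD0 : 0 < D := by linarith
  have hΛ0 : 0 < Λ := by linarith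
  have hc1 : 1 ≤ D + 2 / Λ := by
    have : 0 ≤ 2 / Λ := by positivity
    linarith
  have hc3 : D + 2 / Λ ≤ 3 * D := by
    have : 2 / Λ ≤ 2 := by rw [div_le_iff₀ hΛ0]; linarith
    linarith
  choose g hg1 hg2 using fun m => local_map C D Λ hD hΛ (φ m) l m (hφ1 m) (hφ2 m) L hL f hf
  choose G hG using fun m => hj m ((D + 2 / Λ) * L) (g m) (by positivity) (hg1 m)
  have hκ0 : 0 ≤ 5000 * D ^ 3 * Λ ^ 2 := by positivity
  have hβ0 : 0 < 6 * D * Λ := by positivity
  have hε0 : 0 < 1 / (6 * D) := by positivity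
  obtain ⟨p, hp⟩ : ∃ p : X → ι → ℝ, p = fun x =>
    pp (6 * D * Λ) (1 / (6 * D)) (fun m => C.δ m x / C.δ l x) := ⟨_, rfl⟩
  have hs0 : ∀ x, ∃ m, (fun m => C.δ m x / C.δ l x) m = 0 := by
    intro x
    obtain ⟨m, hm⟩ := C.cov x
    exact ⟨m, by simp [C.δ_eq_zero hm]⟩
  have hp0 : ∀ x m, 0 ≤ p x m := fun x m => by rw [hp]; exact pp_nonneg _ _ _ _
  have hp1 : ∀ x, ∑ m, p x m = 1 := fun x => by rw [hp]; exact pp_sum _ _ hβ0 hε0 _ (hs0 x)
  have hplt : ∀ x m, 0 < C.δ l x → 0 < p x m → C.δ m x < 1 / (6 * D) * C.δ l x := by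
    intro x m hx h
    rw [hp] at h
    have := lt_of_pp_pos _ _ hβ0 _ m h
    rwa [div_lt_iff₀ hx] at this
  refine ⟨fun x => if x ∈ C.B l then f x else ∑ m, p x m • G m x, ?_, ?_, ?_⟩
  · intro x hx
    simp [hx]
  · intro x
    by_cases hx : x ∈ C.B l
    · simp only [hx, if_true]
      rw [C.z_eq hx, sub_self, norm_zero]
      have := C.δ_nonneg l x
      positivity
    · simp only [hx, if_false]
      have hδ : 0 < C.δ l x :=
        lt_of_le_of_ne (C.δ_nonneg l x) (fun h => hx (C.mem_of_δ_eq_zero h.symm))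
      have e : ∑ m, p x m • G m x - f (C.z l x) = ∑ m, p x m • (G m x - f (C.z l x)) := by
        simp only [smul_sub, Finset.sum_sub_distrib, ← Finset.sum_smul, hp1, one_smul]
      rw [e]
      refine (norm_sum_smul_le _ _).trans ?_
      have h1 : ∀ m, |p x m| * ‖G m x - f (C.z l x)‖ ≤
          p x m * (24 * D ^ 2 * Λ * L * C.δ l x) := by
        intro m
        rw [abs_of_nonneg (hp0 x m)]
        rcases (hp0 x m).eq_or_lt with h | h
        · rw [← h]; simp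
        · apply mul_le_mul_of_nonneg_left _ (hp0 x m)
          exact anchor1 C D Λ _ hD hΛ hc3 l m L hL f (g m) (G m) hf (hg2 m) (hG m).2.1 x
            (hplt x m hδ h).le
      refine (Finset.sum_le_sum (fun m _ => h1 m)).trans (le_of_eq ?_)
      rw [← Finset.sum_mul, hp1, one_mul]
  · intro x y hn hcj
    obtain ⟨hx, hy⟩ := near_pos C _ (by positivity) l x y hn
    have hxB : x ∉ C.B l := fun h => hx.ne' (C.δ_eq_zero h)
    have hyB : y ∉ C.B l := fun h => hy.ne' (C.δ_eq_zero h)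
    simp only [hxB, hyB, if_false]
    have hd0 : 0 ≤ dist x y := dist_nonneg
    obtain ⟨hr1, hr2⟩ := first_sum C D Λ (D + 2 / Λ) (5000 * D ^ 3 * Λ ^ 2) hD hΛ hc1 hκ0 l x y hx
    have hpx : p x = pp (6 * D * Λ) (1 / (6 * D)) (fun m => C.δ m x / C.δ l x) := by rw [hp]
    have hpy : p y = pp (6 * D * Λ) (1 / (6 * D)) (fun m => C.δ m y / C.δ l y) := by rw [hp]
    have htv := tv_near C D Λ hD hΛ hcard l x y hx hy
    rw [← hpx] at hr1 hr2
    rw [← hpx, ← hpy] at htv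
    set n := (rel C (1 / (6 * D)) l x y).card with hnn
    have e : ∑ m, p x m • G m x - ∑ m, p y m • G m y =
        ∑ m, p x m • (G m x - G m y) + ∑ m, (p x m - p y m) • (G m y - f (C.z l y)) := by
      simp only [smul_sub, sub_smul, Finset.sum_sub_distrib, ← Finset.sum_smul, hp1]
      abel
    rw [e]
    -- first sum
    have hfirst : ‖∑ m, p x m • (G m x - G m y)‖ ≤
        (vv (D + 2 / Λ) (5000 * D ^ 3 * Λ ^ 2) n - 5000 * D ^ 3 * Λ ^ 2) * L * dist x y := by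
      refine (norm_sum_smul_le _ _).trans ?_
      have h1 : ∀ m, |p x m| * ‖G m x - G m y‖ ≤
          (p x m * vv (D + 2 / Λ) (5000 * D ^ 3 * Λ ^ 2) (rk C D Λ m x y)) *
            ((D + 2 / Λ) * L * dist x y) := by
        intro m
        rw [abs_of_nonneg (hp0 x m)]
        rcases (hp0 x m).eq_or_lt with h | h
        · rw [← h]; simp
        · have h2 := pair_bound C D Λ (D + 2 / Λ) hD hΛ (by linarith) m L hL (g m) (G m) j
            (hg1 m) (hG m) x y (fun hnm => by have := hr1 m h hnm; omega)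
          calc p x m * ‖G m x - G m y‖ ≤ p x m *
              (vv (D + 2 / Λ) (5000 * D ^ 3 * Λ ^ 2) (rk C D Λ m x y) * ((D + 2 / Λ) * L) *
                dist x y) := mul_le_mul_of_nonneg_left h2 (hp0 x m)
            _ = _ := by ring
      refine (Finset.sum_le_sum (fun m _ => h1 m)).trans ?_
      rw [← Finset.sum_mul]
      have h3 : vv (D + 2 / Λ) (5000 * D ^ 3 * Λ ^ 2) n - 5000 * D ^ 3 * Λ ^ 2 =
          (D + 2 / Λ) * ((∑ j ∈ range n, vv (D + 2 / Λ) (5000 * D ^ 3 * Λ ^ 2) j) / n) := by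
        rw [vv_eq (D + 2 / Λ) (5000 * D ^ 3 * Λ ^ 2) n]; ring
      rw [h3]
      calc (∑ m, p x m * vv (D + 2 / Λ) (5000 * D ^ 3 * Λ ^ 2) (rk C D Λ m x y)) *
            ((D + 2 / Λ) * L * dist x y) ≤
          ((∑ j ∈ range n, vv (D + 2 / Λ) (5000 * D ^ 3 * Λ ^ 2) j) / n) *
            ((D + 2 / Λ) * L * dist x y) :=
            mul_le_mul_of_nonneg_right hr2 (by positivity)
        _ = _ := by ring
    -- second sum
    have hR : 0 < min (C.δ l x) (C.δ l y) := lt_min hx hy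
    have hdR : dist x y < 1 / 12 * min (C.δ l x) (C.δ l y) := by
      refine lt_of_lt_of_le hn ?_
      apply mul_le_mul_of_nonneg_right _ hR.le
      apply one_div_le_one_div_of_le (by norm_num)
      have : 1 ≤ D * Λ := one_le_mul_of_one_le_of_one_le hD hΛ
      linarith
    have hyR : C.δ l y ≤ 13 / 12 * min (C.δ l x) (C.δ l y) := by
      rcases le_total (C.δ l x) (C.δ l y) with h | h
      · have h1 := C.δ_le l y x
        rw [dist_comm y x] at h1
        rw [min_eq_left h] at hdR ⊢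
        linarith
      · rw [min_eq_right h]; linarith
    have hfar : ∀ m, 0 < p x m ∨ 0 < p y m → C.δ m y ≤ 2 * (1 / (6 * D)) * C.δ l y := by
      intro m hm
      rcases hm with h | h
      · have h1 := hplt x m hx h
        have h2 := C.δ_le m y x
        have h3 := C.δ_le l x y
        rw [dist_comm y x] at h2
        have h4 : 1 / (6 * D) * C.δ l x ≤ 1 / (6 * D) * (C.δ l y + dist x y) :=
          mul_le_mul_of_nonneg_left h3 hε0.le
        have h5 : 1 / (6 * D) ≤ 1 / 6 := by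
          apply one_div_le_one_div_of_le (by norm_num)
          linarith
        have h6 : dist x y ≤ 1 / (12 * D * Λ) * C.δ l y := by
          refine hn.le.trans ?_
          exact mul_le_mul_of_nonneg_left (min_le_right _ _) (by positivity)
        have h7 : 1 / (12 * D * Λ) ≤ 1 / (12 * D) := by
          apply one_div_le_one_div_of_le (by positivity)
          exact le_mul_of_one_le_right (by positivity) hΛ
        have h8 : 1 / (12 * D) = 1 / 2 * (1 / (6 * D)) := by field_simp; norm_num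
        have h9 : dist x y ≤ 1 / 2 * (1 / (6 * D)) * C.δ l y := by
          refine h6.trans ?_
          rw [← h8]
          exact mul_le_mul_of_nonneg_right h7 hy.le
        have h10 : 1 / (6 * D) * dist x y ≤ 1 / 6 * dist x y := mul_le_mul_of_nonneg_right h5 hd0
        linarith
      · have h1 := hplt y m hy h
        have h2 : 0 ≤ 1 / (6 * D) * C.δ l y := by positivity
        linarith
    have hsecond : ‖∑ m, (p x m - p y m) • (G m y - f (C.z l y))‖ ≤
        5000 * D ^ 3 * Λ ^ 2 * L * dist x y := by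
      refine (norm_sum_smul_le _ _).trans ?_
      have h1 : ∀ m, |p x m - p y m| * ‖G m y - f (C.z l y)‖ ≤
          |p x m - p y m| * (35 * D ^ 2 * Λ * L * C.δ l y) := by
        intro m
        by_cases hm : 0 < p x m ∨ 0 < p y m
        · apply mul_le_mul_of_nonneg_left _ (abs_nonneg _)
          exact anchor2 C D Λ _ hD hΛ hc3 l m L hL f (g m) (G m) hf (hg2 m) (hG m).2.1 y
            (hfar m hm)
        · rw [not_or] at hm
          have h2 : p x m = 0 := le_antisymm (not_lt.mp hm.1) (hp0 x m)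
          have h3 : p y m = 0 := le_antisymm (not_lt.mp hm.2) (hp0 y m)
          rw [h2, h3]; simp
      refine (Finset.sum_le_sum (fun m _ => h1 m)).trans ?_
      rw [← Finset.sum_mul]
      calc (∑ m, |p x m - p y m|) * (35 * D ^ 2 * Λ * L * C.δ l y)
          ≤ (8 * (6 * D * Λ) * (2 * dist x y / min (C.δ l x) (C.δ l y))) *
            (35 * D ^ 2 * Λ * L * (13 / 12 * min (C.δ l x) (C.δ l y))) := by
            gcongr
        _ = 3640 * (D ^ 3 * Λ ^ 2 * L * dist x y) := by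
            field_simp
            ring
        _ ≤ 5000 * (D ^ 3 * Λ ^ 2 * L * dist x y) := by
            have : 0 ≤ D ^ 3 * Λ ^ 2 * L * dist x y := by positivity
            linarith
        _ = _ := by ring
    refine (norm_add_le _ _).trans ((add_le_add hfirst hsecond).trans (le_of_eq ?_))
    ring

end Step

/-- Every Lipschitz map from a class into a Hilbert space extends to the whole space. -/
theorem extension {X : Type u} [Fintype X] [MetricSpace X] {ι : Type v} [Fintype ι]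
    (C : Cover X ι) (D : ℝ) (hD : 1 ≤ D) (H : ι → Type v')
    [∀ l, NormedAddCommGroup (H l)] [∀ l, InnerProductSpace ℝ (H l)] (φ : ∀ l, X → H l)
    (hφ1 : ∀ l, ∀ x ∈ C.B l, ∀ y ∈ C.B l, dist x y ≤ ‖φ l x - φ l y‖)
    (hφ2 : ∀ l, ∀ x ∈ C.B l, ∀ y ∈ C.B l, ‖φ l x - φ l y‖ ≤ D * dist x y)
    (k : ℕ) (hk1 : 1 ≤ k) (hk : Fintype.card ι ≤ k) (l : ι) :
    ExtProp.{u, v, w} C (24 * D ^ 2 * (1 + Real.log k))
      (120000 * D ^ 4 * (1 + Real.log k) ^ 3 * (k : ℝ) ^ (D - 1)) l := by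
  intro K _ _ L f hL hf
  have hk1' : (1 : ℝ) ≤ k := by exact_mod_cast hk1
  have hΛ : 1 ≤ 1 + Real.log k := by
    have := Real.log_nonneg hk1'
    linarith
  have hcard := tv_hk (Fintype.card ι) k hk1 hk (1 + Real.log k) rfl
  have hPP : ∀ j, PP C D (1 + Real.log k)
      (vv (D + 2 / (1 + Real.log k)) (5000 * D ^ 3 * (1 + Real.log k) ^ 2)) K j := by
    intro j
    induction j with
    | zero => exact PP_zero C D _ hD hΛ _ K
    | succ j ih => exact step C D _ hD hΛ hcard H φ hφ1 hφ2 K j ih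
  obtain ⟨F, hF1, hF2, hF3⟩ := hPP (Fintype.card ι) l L f hL hf
  refine ⟨F, hF1, hF2, ?_⟩
  intro x y
  have hLd : 0 ≤ L * dist x y := mul_nonneg hL dist_nonneg
  by_cases hn : Near C (1 / (12 * D * (1 + Real.log k))) l x y
  · have h1 := hF3 x y hn (Finset.card_le_univ _)
    refine h1.trans ?_
    rw [mul_assoc, mul_assoc _ L]
    apply mul_le_mul_of_nonneg_right _ hLd
    exact vv_final D hD k hk1 _ ((Finset.card_le_univ _).trans hk)
  · have h1 := far C D _ hD hΛ l L hL f F hf hF2 x y hn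
    refine h1.trans ?_
    rw [mul_assoc _ L, mul_assoc _ L]
    apply mul_le_mul_of_nonneg_right _ hLd
    have h2 := vv_final D hD k hk1 0 (Nat.zero_le _)
    rwa [vv_zero] at h2

end Pool.Agent.Lib.MP_caca3f_an.Ext
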