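import Pool.Agent.Lib.MP_caca3f_an.Ext.Extend
import Pool.Agent.Lib.MP_caca3f_an.Ext.Embed
import Pool.Agent.Lib.MP_caca3f_an.Compact

/-!
# The union theorem
-/

namespace Pool.Agent.Lib.MP_caca3f_an.Ext

universe u

/-- `X` embeds into a Hilbert space with distortion at most `D`. -/
def EmbedsWithDistortion (X : Type u) [MetricSpace X] (D : ℝ) : Prop :=
  ∃ (H : Type u) (_ : NormedAddCommGroup H) (_ : InnerProductSpace ℝ H) (_ : CompleteSpace H)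
    (f : X → H) (s : ℝ), 0 < s ∧
      ∀ x y, s * dist x y ≤ ‖f x - f y‖ ∧ ‖f x - f y‖ ≤ s * D * dist x y

/-- the number of scales is at most `1.45 (1 + log k)` -/
theorem scales_le (k : ℕ) (hk : 1 ≤ k) :
    ((Nat.log 2 k + 1 : ℕ) : ℝ) ≤ 1.45 * (1 + Real.log k) := by
  have hlog2 : (0.6931471803 : ℝ) < Real.log 2 := Real.log_two_gt_d9
  have hk0 : (1 : ℝ) ≤ k := by exact_mod_cast hk
  have h1 : (2 : ℝ) ^ (Nat.log 2 k) ≤ k := by
    exact_mod_cast Nat.pow_log_le_self 2 (by omega)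
  have h2 : (Nat.log 2 k : ℝ) * Real.log 2 ≤ Real.log k := by
    have := Real.log_le_log (by positivity) h1
    rwa [Real.log_pow] at this
  have h3 : (0 : ℝ) ≤ Real.log k := Real.log_nonneg hk0
  have h4 : (0 : ℝ) ≤ (Nat.log 2 k : ℝ) := by positivity
  push_cast
  nlinarith [mul_nonneg h4 (sub_nonneg.mpr hlog2.le)]

/-- the constants of the final statement -/
theorem final_constant (D Λ P I : ℝ) (hD : 1 ≤ D) (hΛ : 1 ≤ Λ) (hP : 1 ≤ P) (hI0 : 0 ≤ I)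
    (hI : I ≤ 1.45 * Λ) :
    256 * (18 + 2 * (120000 * D ^ 4 * Λ ^ 3 * P) ^ 2) * Λ
        * (1 + 24 * D ^ 2 * Λ * D) ^ 2 * I ^ 2
      ≤ (2 * 10 ^ 8 * D ^ 7 * Λ ^ 6 * P) ^ 2 := by
  have hD3 : 1 ≤ D ^ 3 := one_le_pow₀ hD
  have hΛ0 : 0 < Λ := by linarith
  have hD0 : 0 < D := by linarith
  have hP0 : 0 < P := by linarith
  have h1 : 1 + 24 * D ^ 2 * Λ * D ≤ 25 * D ^ 3 * Λ := by
    have : 1 ≤ D ^ 3 * Λ := one_le_mul_of_one_le_of_one_le hD3 hΛ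
    nlinarith
  have h2 : (1 + 24 * D ^ 2 * Λ * D) ^ 2 ≤ (25 * D ^ 3 * Λ) ^ 2 :=
    pow_le_pow_left₀ (by positivity) h1 2
  have h3 : I ^ 2 ≤ (1.45 * Λ) ^ 2 := pow_le_pow_left₀ hI0 hI 2
  have hq : 1 ≤ D ^ 4 * Λ ^ 3 * P := by
    have a1 : 1 ≤ D ^ 4 := one_le_pow₀ hD
    have a2 : 1 ≤ Λ ^ 3 := one_le_pow₀ hΛ
    exact one_le_mul_of_one_le_of_one_le (one_le_mul_of_one_le_of_one_le a1 a2) hP
  have h4 : 18 + 2 * (120000 * D ^ 4 * Λ ^ 3 * P) ^ 2 ≤ 3 * 10 ^ 10 * (D ^ 4 * Λ ^ 3 * P) ^ 2 := by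
    have : 1 ≤ (D ^ 4 * Λ ^ 3 * P) ^ 2 := one_le_pow₀ hq
    nlinarith
  calc 256 * (18 + 2 * (120000 * D ^ 4 * Λ ^ 3 * P) ^ 2) * Λ
        * (1 + 24 * D ^ 2 * Λ * D) ^ 2 * I ^ 2
      ≤ 256 * (3 * 10 ^ 10 * (D ^ 4 * Λ ^ 3 * P) ^ 2) * Λ * (25 * D ^ 3 * Λ) ^ 2
          * (1.45 * Λ) ^ 2 := by gcongr
    _ = (256 * 3 * 25 ^ 2 * 1.45 ^ 2 * 10 ^ 10) * (D ^ 14 * Λ ^ 11 * P ^ 2) := by ring
    _ ≤ (4 * 10 ^ 16) * (D ^ 14 * Λ ^ 12 * P ^ 2) := by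
        have h5 : Λ ^ 11 ≤ Λ ^ 12 := pow_le_pow_right₀ hΛ (by norm_num)
        have h6 : D ^ 14 * Λ ^ 11 * P ^ 2 ≤ D ^ 14 * Λ ^ 12 * P ^ 2 := by gcongr
        exact mul_le_mul (by norm_num) h6 (by positivity) (by norm_num)
    _ = (2 * 10 ^ 8 * D ^ 7 * Λ ^ 6 * P) ^ 2 := by ring

/-- the embedding of finite subsets -/
theorem finite_union {X : Type u} [MetricSpace X] (k : ℕ) (hk : 1 ≤ k) (A : Fin k → Set X)
    (D : ℝ) (hD : 1 ≤ D) (hcov : ⋃ i, A i = Set.univ)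
    (hA : ∀ i, EmbedsWithDistortion (A i) D) (S : Finset X) :
    ∃ (H : Type u) (_ : NormedAddCommGroup H) (_ : InnerProductSpace ℝ H) (F : S → H),
      ∀ x y : S, dist x y ^ 2 ≤ ‖F x - F y‖ ^ 2 ∧ ‖F x - F y‖ ^ 2 ≤
        (2 * 10 ^ 8 * D ^ 7 * (1 + Real.log k) ^ 6 * (k : ℝ) ^ (D - 1)) ^ 2 * dist x y ^ 2 := by
  classical
  have hk0 : (1 : ℝ) ≤ k := by exact_mod_cast hk
  have hlog : (0 : ℝ) ≤ Real.log k := Real.log_nonneg hk0
  set ι : Type := {l : Fin k // ∃ x : S, x.1 ∈ A l} with hι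
  have hz : ∀ (l : ι) (x : S), ∃ z : S, z.1 ∈ A l.1 ∧ ∀ b : S, b.1 ∈ A l.1 → dist x z ≤ dist x b := by
    intro l x
    obtain ⟨x0, hx0⟩ := l.2
    obtain ⟨z, hz1, hz2⟩ := Finset.exists_min_image (Finset.univ.filter fun b : S => b.1 ∈ A l.1)
      (fun b => dist x b) ⟨x0, by simpa using hx0⟩
    refine ⟨z, by simpa using hz1, fun b hb => hz2 b (by simpa using hb)⟩
  choose z hz1 hz2 using hz
  let C : Cover S ι :=
    { B := fun l => {x : S | x.1 ∈ A l.1}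
      z := z
      zmem := fun l x => hz1 l x
      zmin := fun l x b hb => hz2 l x b hb
      cov := by
        intro x
        have : x.1 ∈ ⋃ i, A i := by rw [hcov]; trivial
        obtain ⟨i, hi⟩ := Set.mem_iUnion.mp this
        exact ⟨⟨i, x, hi⟩, hi⟩ }
  choose H i1 i2 i3 f s hs hf using hA
  let φ : ∀ l : ι, S → H l.1 := fun l x =>
    if h : x.1 ∈ A l.1 then (1 / s l.1) • f l.1 ⟨x.1, h⟩ else 0
  have key : ∀ l : ι, ∀ x ∈ C.B l, ∀ y ∈ C.B l,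
      dist x y ≤ ‖φ l x - φ l y‖ ∧ ‖φ l x - φ l y‖ ≤ D * dist x y := by
    intro l x hx y hy
    have hx' : x.1 ∈ A l.1 := hx
    have hy' : y.1 ∈ A l.1 := hy
    have hsl : 0 < s l.1 := hs l.1
    simp only [φ]
    rw [dif_pos hx', dif_pos hy', ← smul_sub, norm_smul, Real.norm_eq_abs,
      abs_of_pos (by positivity)]
    have h1 := hf l.1 ⟨x.1, hx'⟩ ⟨y.1, hy'⟩
    have h2 : dist (⟨x.1, hx'⟩ : A l.1) ⟨y.1, hy'⟩ = dist x y := rfl
    rw [h2] at h1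
    constructor
    · rw [one_div, inv_mul_eq_div, le_div_iff₀ hsl]; linarith [h1.1]
    · rw [one_div, inv_mul_eq_div, div_le_iff₀ hsl]; linarith [h1.2]
  have hcard : Fintype.card ι ≤ k := by
    calc Fintype.card ι ≤ Fintype.card (Fin k) := Fintype.card_subtype_le _
      _ = k := Fintype.card_fin k
  have hI : Fintype.card ι < 2 ^ (Nat.log 2 k + 1) :=
    lt_of_le_of_lt hcard (Nat.lt_pow_succ_log_self (by norm_num) k)
  have hP : (1 : ℝ) ≤ (k : ℝ) ^ (D - 1) := Real.one_le_rpow hk0 (by linarith)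
  have hC0 : (1 : ℝ) ≤ 24 * D ^ 2 * (1 + Real.log k) := by
    have a1 : 1 ≤ D ^ 2 := one_le_pow₀ hD
    nlinarith
  have hV : (0 : ℝ) ≤ 120000 * D ^ 4 * (1 + Real.log k) ^ 3 * (k : ℝ) ^ (D - 1) := by positivity
  obtain ⟨K, j1, j2, F, hF⟩ := finite_embedding C D hD (fun l => H l.1) φ
    (fun l x hx y hy => (key l x hx y hy).1) (fun l x hx y hy => (key l x hx y hy).2)
    (24 * D ^ 2 * (1 + Real.log k))
    (120000 * D ^ 4 * (1 + Real.log k) ^ 3 * (k : ℝ) ^ (D - 1)) hC0 hV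
    (fun l => extension C D hD (fun l => H l.1) φ
      (fun l x hx y hy => (key l x hx y hy).1) (fun l x hx y hy => (key l x hx y hy).2)
      k hk hcard l)
    k hk hcard (Nat.log 2 k + 1) hI
  refine ⟨K, j1, j2, F, fun x y => ⟨(hF x y).1, (hF x y).2.trans ?_⟩⟩
  have hc := final_constant D (1 + Real.log k) ((k : ℝ) ^ (D - 1)) ((Nat.log 2 k + 1 : ℕ) : ℝ)
    hD (by linarith) hP (by positivity) (scales_le k hk)
  exact mul_le_mul_of_nonneg_right hc (by positivity)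

theorem union_embeds {X : Type u} [MetricSpace X] (k : ℕ) (hk : 1 ≤ k) (A : Fin k → Set X)
    (D : ℝ) (hD : 1 ≤ D) (hcov : ⋃ i, A i = Set.univ)
    (hA : ∀ i, EmbedsWithDistortion (A i) D) :
    EmbedsWithDistortion X
      (2 * 10 ^ 8 * D ^ 7 * (1 + Real.log k) ^ 6 * (k : ℝ) ^ (D - 1)) := by
  classical
  have hk0 : (1 : ℝ) ≤ k := by exact_mod_cast hk
  have hlog : (0 : ℝ) ≤ Real.log k := Real.log_nonneg hk0
  set C' : ℝ := 2 * 10 ^ 8 * D ^ 7 * (1 + Real.log k) ^ 6 * (k : ℝ) ^ (D - 1) with hC'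
  have hC'0 : 0 ≤ C' := by positivity
  obtain ⟨H, i1, i2, i3, F, hF⟩ := hilbert_compactness (fun x y : X => dist x y) (C' ^ 2) (by
    intro S
    obtain ⟨H, i1, i2, F, hF⟩ := finite_union k hk A D hD hcov hA S
    refine ⟨H, i1, i2, fun x => if h : x ∈ S then F ⟨x, h⟩ else 0, ?_⟩
    intro x hx y hy
    simp only [dif_pos hx, dif_pos hy]
    exact hF ⟨x, hx⟩ ⟨y, hy⟩)
  refine ⟨H, i1, i2, i3, F, 1, one_pos, fun x y => ?_⟩
  obtain ⟨h1, h2⟩ := hF x y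
  constructor
  · rw [one_mul]
    exact (sq_le_sq₀ dist_nonneg (norm_nonneg _)).mp h1
  · rw [one_mul]
    apply (sq_le_sq₀ (norm_nonneg _) (by positivity)).mp
    rw [mul_pow]; exact h2

end Pool.Agent.Lib.MP_caca3f_an.Ext
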